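import Pool.Agent.U115.MQ

/-!
# `X_0(14)` over multiquadratic fields: the main theorem
-/

set_option autoImplicit false

open Finset NumberField IsCyclotomicExtension.Rat H300.HW IsDedekindDomain
open scoped symmDiff

namespace Pool.Agent.U115.MQ

open scoped Classical

open Pool.Agent.Y687 (Symb Symb2)
open Pool.Agent.Y682 (NCl)
open Pool.Agent.Y682.XD
open Pool.Agent.Y682.XT
open Pool.Agent.W97.MT (ap E14 II)
open Pool.Agent.Y18.BSD (dd disc jc)

/-- the primes of a good twist -/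
theorem GT.prime {D : ℕ} (h : GT D) {p : ℕ} (hp : p.Prime) (hpD : p ∣ D) :
    Pool.Agent.Y687.Inert p ∨ Pool.Agent.Y687.Split p := by
  rcases h with ⟨S, hS, rfl⟩ | ⟨p', S, hp', hS, -, rfl⟩ | ⟨p1, p2, S, -, h1, h2, hS, -, rfl⟩
  · exact Or.inl (hS p (Pool.Agent.Y687.dvd_prod_primes (fun q hq => (hS q hq).1) hp hpD))
  · rcases (hp.dvd_mul).1 hpD with h | h
    · rw [(Nat.prime_dvd_prime_iff_eq hp hp'.1).1 h]
      exact Or.inr hp'
    · exact Or.inl (hS p (Pool.Agent.Y687.dvd_prod_primes (fun q hq => (hS q hq).1) hp h))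
  · rcases (hp.dvd_mul).1 hpD with h | h
    · rcases (hp.dvd_mul).1 h with h | h
      · rw [(Nat.prime_dvd_prime_iff_eq hp h1.1).1 h]
        exact Or.inr h1
      · rw [(Nat.prime_dvd_prime_iff_eq hp h2.1).1 h]
        exact Or.inr h2
    · exact Or.inl (hS p (Pool.Agent.Y687.dvd_prod_primes (fun q hq => (hS q hq).1) hp h))

theorem GT.prime4 {D : ℕ} (h : GT D) {p : ℕ} (hp : p.Prime) (hpD : p ∣ D) :
    p % 4 = 1 ∧ p ≠ 7 := by
  rcases h.prime hp hpD with h | h
  · have h1 := h.2.1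
    have h2 := h.2.2
    omega
  · have h1 := h.2.1
    have h2 := h.2.2
    omega

/-- the parity of the number of the elements of `U` divisible by `p` -/
noncomputable def cp (U : Finset ℤ) (p : ℕ) : ZMod 2 := ∑ d ∈ U, if (p : ℤ) ∣ d then 1 else 0

/-- the primes in `S0` that divide an odd number of elements of `U` -/
noncomputable def od (S0 : Finset ℕ) (U : Finset ℤ) : Finset ℕ := S0.filter fun p => cp U p = 1

theorem sum_sdiff_inter' (U V : Finset ℤ) (f : ℤ → ZMod 2) :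
    ∑ d ∈ U \ V, f d + ∑ d ∈ U ∩ V, f d = ∑ d ∈ U, f d := by
  have h := Finset.sum_sdiff (f := f) (Finset.inter_subset_left : U ∩ V ⊆ U)
  rwa [Finset.sdiff_inter_self_left] at h

theorem cp_symm (U V : Finset ℤ) (p : ℕ) : cp (U ∆ V) p = cp U p + cp V p := by
  unfold cp
  have e1 : ∑ d ∈ U, (if (p : ℤ) ∣ d then (1 : ZMod 2) else 0) =
      ∑ d ∈ U \ V, (if (p : ℤ) ∣ d then 1 else 0) + ∑ d ∈ U ∩ V, (if (p : ℤ) ∣ d then 1 else 0) :=
    (sum_sdiff_inter' U V _).symm
  have e2 : ∑ d ∈ V, (if (p : ℤ) ∣ d then (1 : ZMod 2) else 0) =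
      ∑ d ∈ V \ U, (if (p : ℤ) ∣ d then 1 else 0) + ∑ d ∈ V ∩ U, (if (p : ℤ) ∣ d then 1 else 0) :=
    (sum_sdiff_inter' V U _).symm
  rw [e1, e2, Finset.inter_comm V U]
  have e3 : U ∆ V = (U \ V) ∪ (V \ U) := rfl
  rw [e3, Finset.sum_union disjoint_sdiff_sdiff]
  generalize ∑ d ∈ U \ V, (if (p : ℤ) ∣ d then (1 : ZMod 2) else 0) = a
  generalize ∑ d ∈ V \ U, (if (p : ℤ) ∣ d then (1 : ZMod 2) else 0) = b
  generalize ∑ d ∈ U ∩ V, (if (p : ℤ) ∣ d then (1 : ZMod 2) else 0) = c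
  revert a b c
  decide

theorem od_symm (S0 : Finset ℕ) (U V : Finset ℤ) : od S0 U ∆ od S0 V = od S0 (U ∆ V) := by
  ext p
  unfold od
  rw [Finset.mem_symmDiff, Finset.mem_filter, Finset.mem_filter, Finset.mem_filter, cp_symm]
  by_cases hp : p ∈ S0
  · simp only [hp, true_and]
    generalize cp U p = a
    generalize cp V p = b
    revert a b
    decide
  · simp [hp]

/-- the parity of a multiplicity -/
theorem cp_eq {U : Finset ℤ} (hU : ∀ d ∈ U, Squarefree d) {p : ℕ} (hp : p.Prime) :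
    cp U p = ((padicValInt p (∏ d ∈ U, d) : ℕ) : ZMod 2) := by
  classical
  have : Fact p.Prime := ⟨hp⟩
  induction U using Finset.induction_on with
  | empty => simp [cp]
  | insert d U hd ih =>
    have hdU := hU d (Finset.mem_insert_self _ _)
    have ih' := ih fun e he => hU e (Finset.mem_insert_of_mem he)
    have hd0 : d ≠ 0 := hdU.ne_zero
    have hP0 : ∏ e ∈ U, e ≠ 0 := Finset.prod_ne_zero_iff.2 fun e he =>
      (hU e (Finset.mem_insert_of_mem he)).ne_zero
    rw [Finset.prod_insert hd, padicValInt.mul hd0 hP0, Nat.cast_add, ← ih']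
    unfold cp
    rw [Finset.sum_insert hd]
    congr 1
    have hle : padicValInt p d ≤ 1 := by
      by_contra h
      have h2 : ((p : ℕ) : ℤ) ^ 2 ∣ d := (padicValInt_dvd_iff 2 d).2 (Or.inr (by omega))
      rw [pow_two] at h2
      have h3 := hdU _ h2
      rw [Int.isUnit_iff] at h3
      have := hp.two_le
      omega
    have hiff : (p : ℤ) ∣ d ↔ 1 ≤ padicValInt p d := by
      have := padicValInt_dvd_iff (p := p) 1 d
      rw [pow_one] at this
      rw [this]
      exact ⟨fun h => h.resolve_left hd0, Or.inr⟩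
    by_cases h : (p : ℤ) ∣ d
    · rw [if_pos h]
      have h4 := hiff.1 h
      have h5 : padicValInt p d = 1 := by omega
      rw [h5, Nat.cast_one]
    · rw [if_neg h]
      have h5 : padicValInt p d = 0 := by
        by_contra h6
        exact h (hiff.2 (by omega))
      rw [h5, Nat.cast_zero]

/-- the squarefree part -/
theorem dd_od {S0 : Finset ℕ} {U : Finset ℤ} (h0 : ∀ p ∈ S0, p.Prime)
    (hU : ∀ d ∈ U, Squarefree d) (hU0 : ∀ d ∈ U, ∀ p : ℕ, p.Prime → (p : ℤ) ∣ d → p ∈ S0)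
    {D r : ℕ} (hr : r ≠ 0) (h : ∏ d ∈ U, d = ((D * r ^ 2 : ℕ) : ℤ)) (hD : Squarefree D) :
    dd (od S0 U) = D := by
  classical
  have hset : od S0 U = D.primeFactors := by
    ext p
    unfold od
    rw [Finset.mem_filter, Nat.mem_primeFactors]
    have key : ∀ p : ℕ, p.Prime → (cp U p = 1 ↔ p ∣ D) := by
      intro p hp
      have : Fact p.Prime := ⟨hp⟩
      rw [cp_eq hU hp, h]
      have e1 : padicValInt p ((D * r ^ 2 : ℕ) : ℤ) = padicValNat p (D * r ^ 2) := rfl
      rw [e1, padicValNat.mul hD.ne_zero (pow_ne_zero 2 hr), padicValNat.pow]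
      push_cast
      have e2 : (2 : ZMod 2) = 0 := rfl
      rw [e2, zero_mul, add_zero]
      have hle : padicValNat p D ≤ 1 := by
        have h3 := (Nat.squarefree_iff_factorization_le_one hD.ne_zero).1 hD p
        rwa [Nat.factorization_def D hp] at h3
      constructor
      · intro h3
        have h4 : padicValNat p D ≠ 0 := by
          intro h5
          rw [h5] at h3
          exact absurd h3 (by decide)
        exact dvd_of_one_le_padicValNat (by omega)
      · intro h3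
        have h4 : 1 ≤ padicValNat p D := one_le_padicValNat_of_dvd hD.ne_zero h3
        have h5 : padicValNat p D = 1 := by omega
        rw [h5, Nat.cast_one]
    constructor
    · rintro ⟨h1, h2⟩
      exact ⟨h0 p h1, (key p (h0 p h1)).1 h2, hD.ne_zero⟩
    · rintro ⟨h1, h2, -⟩
      refine ⟨?_, (key p h1).2 h2⟩
      have h3 : (p : ℤ) ∣ ∏ d ∈ U, d := by
        rw [h]
        exact_mod_cast dvd_mul_of_dvd_left h2 _
      obtain ⟨d, hd, hpd⟩ := (Nat.prime_iff_prime_int.1 h1).exists_mem_finset_dvd h3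
      exact hU0 d hd p h1 hpd
  unfold dd
  rw [hset]
  exact Nat.prod_primeFactors_of_squarefree hD

/-- the main theorem -/
theorem main_gen (H : Parts) (q : ℕ) [NeZero q] (hq : IsPrimePow q) (hco : q.Coprime 14)
    (K : IntermediateField ℚ ℂ) [NumberField K]
    (hK : K ≤ IntermediateField.adjoin ℚ {z : ℂ | z ^ q = 1}) (hodd : Odd (Module.finrank ℚ K))
    (hcl : 3 ∣ q ∨ ((Ideal.span {((2 : ℕ) : 𝓞 K)}).IsPrime ∧
      (Ideal.span {((7 : ℕ) : 𝓞 K)}).IsPrime ∧ Odd (Nat.card (NCl K))))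
    (S : Finset ℤ) (hS : HypS q K S)
    (hG : ∀ U ⊆ S, ∃ D r : ℕ, r ≠ 0 ∧ ∏ d ∈ U, d = ((D * r ^ 2 : ℕ) : ℤ) ∧ GT D) (F₀ F : IntermediateField ℚ ℂ) [NumberField F₀]
    [NumberField F] (hF₀ : F₀ = mq S) (hF : F = F₀ ⊔ K) :
    ∃ G₀ G : ℂ → ℂ, Differentiable ℂ G₀ ∧ Differentiable ℂ G ∧
      (∀ z : ℂ, 3 / 2 < z.re → HasProd (fE (K := F₀) z) (G₀ z)) ∧
      (∀ z : ℂ, 3 / 2 < z.re → HasProd (fE (K := F) z) (G z)) ∧
      analyticOrderAt G 1 = analyticOrderAt G₀ 1 ∧ analyticOrderAt G₀ 1 ≠ ⊤ ∧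
      RR F 1 = RR F₀ 1 ∧ G₀ 1 ≠ 0 ∧ RR F₀ 1 = 0 := by
  -- the primes
  set S0 : Finset ℕ := S.biUnion fun d => d.natAbs.primeFactors with hS0
  have hmemS0 : ∀ p : ℕ, p ∈ S0 ↔ ∃ d ∈ S, p.Prime ∧ (p : ℤ) ∣ d := by
    intro p
    rw [hS0, mem_biUnion]
    constructor
    · rintro ⟨d, hd, hp⟩
      exact ⟨d, hd, Nat.prime_of_mem_primeFactors hp,
        Int.natCast_dvd.2 (Nat.dvd_of_mem_primeFactors hp)⟩
    · rintro ⟨d, hd, hp, hpd⟩
      refine ⟨d, hd, Nat.mem_primeFactors.2 ⟨hp, Int.natCast_dvd.1 hpd, ?_⟩⟩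
      intro h0
      have h1 := (hS d hd).2.1
      rw [Int.natAbs_eq_zero.1 h0] at h1
      omega
  have hS0p : ∀ p ∈ S0, p.Prime := fun p hp => by
    obtain ⟨d, -, h1, -⟩ := (hmemS0 p).1 hp
    exact h1
  set P : Finset ℕ := S0.filter fun p => ¬ p ∣ q with hP
  set m : ℕ := ∏ p ∈ P, p with hm
  have hPp : ∀ p ∈ P, p.Prime := fun p hp => hS0p p (mem_filter.1 hp).1
  have hm0 : m ≠ 0 := prod_ne_zero_iff.2 fun p hp => (hPp p hp).ne_zero
  have hnz : NeZero (q * m) := ⟨Nat.mul_ne_zero (NeZero.ne q) hm0⟩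
  have hmsq : Squarefree m := Pool.Agent.Y687.squarefree_prod hPp
  have hmP : ∀ p : ℕ, p.Prime → p ∣ m → p ∈ P := fun p hp h =>
    Pool.Agent.Y687.dvd_prod_primes hPp hp h
  have hP14 : ∀ p ∈ P, ¬ p ∣ 14 ∧ ¬ p ∣ q ∧ (Ideal.span {((p : ℕ) : 𝓞 K)}).IsPrime := by
    intro p hp
    obtain ⟨h1, h2⟩ := mem_filter.1 hp
    obtain ⟨d, hd, h3, h4⟩ := (hmemS0 p).1 h1
    obtain ⟨h5, h6⟩ := (hS d hd).2.2 p h3 h4
    exact ⟨h5, h2, h6.resolve_left h2⟩
  have hmo : Odd m := by
    rw [hm]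
    refine Finset.prod_induction _ Odd (fun _ _ => Odd.mul) odd_one fun r hr => ?_
    refine (hPp r hr).odd_of_ne_two ?_
    rintro rfl
    exact (hP14 2 hr).1 (by norm_num)
  have hS0N : ∀ p ∈ S0, p ∣ q * m := by
    intro p hp
    by_cases h : p ∣ q
    · exact dvd_mul_of_dvd_left h _
    · exact dvd_mul_of_dvd_right (dvd_prod_of_mem _ (mem_filter.2 ⟨hp, h⟩)) _
  -- divisors
  have hdivN : ∀ T : Finset ℕ, T ⊆ S0 → (∏ p ∈ T, p) ∣ q * m := by
    intro T hT
    exact Finset.prod_primes_dvd _ (fun p hp => (hS0p p (hT hp)).prime) fun p hp => hS0N p (hT hp)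
  have hdS : ∀ d ∈ S, d ∣ ((q * m : ℕ) : ℤ) ∧ d % 4 = 1 ∧ Squarefree d := by
    intro d hd
    obtain ⟨h1, h2, -⟩ := hS d hd
    refine ⟨?_, h2, h1⟩
    rw [← Int.natAbs_dvd, Int.natCast_dvd_natCast]
    rw [← Nat.prod_primeFactors_of_squarefree (Int.squarefree_natAbs.2 h1)]
    exact hdivN _ (subset_biUnion_of_mem (fun d => d.natAbs.primeFactors) hd)
  -- the cyclotomic fields
  let L₁ := CyclotomicField q ℚ
  let L := CyclotomicField (q * m) ℚ
  have hc1 : IsCyclotomicExtension {q} ℚ L₁ := CyclotomicField.isCyclotomicExtension q ℚ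
  have hc : IsCyclotomicExtension {q * m} ℚ L := CyclotomicField.isCyclotomicExtension (q * m) ℚ
  obtain ⟨φ, ι, K₁, F₁, hK₁, hF₁, hF₁2⟩ := embz q (q * m) (dvd_mul_right q m) L₁ L K F₀ hK
    (S : Set ℤ) hdS hF₀
  -- the isomorphisms
  let eK : K ≃+* K₁ := ((IntermediateField.equivMap K₁ (φ.comp ι)).trans
    (IntermediateField.equivOfEq hK₁)).symm.toRingEquiv
  have hrk : Module.finrank ℚ K₁ = Module.finrank ℚ K :=
    ((IntermediateField.equivMap K₁ (φ.comp ι)).trans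
      (IntermediateField.equivOfEq hK₁)).toLinearEquiv.finrank_eq
  have hodd1 : Odd (Module.finrank ℚ K₁) := by rw [hrk]; exact hodd
  let e0 : F₁ ≃+* F₀ := ((IntermediateField.equivMap F₁ φ).trans
    (IntermediateField.equivOfEq hF₁)).toRingEquiv
  have hFmap : (F₁ ⊔ K₁.map ι : IntermediateField ℚ L).map φ = F := by
    rw [IntermediateField.map_sup, IntermediateField.map_map, hF, hF₁]
    congr 1
  let eF : (F₁ ⊔ K₁.map ι : IntermediateField ℚ L) ≃+* F :=
    ((IntermediateField.equivMap _ φ).trans (IntermediateField.equivOfEq hFmap)).toRingEquiv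
  -- the field `K₁`
  obtain ⟨h2, h7, hN⟩ : (Ideal.span {((2 : ℕ) : 𝓞 K₁)}).IsPrime ∧
      (Ideal.span {((7 : ℕ) : 𝓞 K₁)}).IsPrime ∧ Odd (Nat.card (NCl K₁)) := by
    rcases hcl with h3 | ⟨h2, h7, hN⟩
    · obtain ⟨n, hn⟩ : ∃ n, q = 3 ^ (n + 1) := by
        obtain ⟨l, k, hl, hk, rfl⟩ := hq
        have hl' := hl.nat_prime
        have h4 : l = 3 := ((Nat.prime_dvd_prime_iff_eq Nat.prime_three hl').1
          (Nat.prime_three.dvd_of_dvd_pow h3)).symm
        subst h4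
        exact ⟨k - 1, by rw [Nat.sub_add_cancel hk]⟩
      have key : ∀ (q' : ℕ) [NeZero q'] (M : Type) [Field M] [NumberField M]
          [IsCyclotomicExtension {q'} ℚ M] (n : ℕ), q' = 3 ^ (n + 1) →
          ∀ (K' : IntermediateField ℚ M), Odd (Module.finrank ℚ K') →
          (Ideal.span {((2 : ℕ) : 𝓞 K')}).IsPrime ∧
          (Ideal.span {((7 : ℕ) : 𝓞 K')}).IsPrime ∧ Odd (Nat.card (NCl K')) := by
        intro q' _ M _ _ _ n hn K' hodd'
        subst hn
        exact three_hyp n M K' hodd'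
      exact key q L₁ n hn K₁ hodd1
    · exact ⟨prime_tr eK 2 h2, prime_tr eK 7 h7, H.nclt K K₁ eK hN⟩
  obtain ⟨s, t, Op, Om, hSy⟩ := exists_sy
  have hypK : HypK s (fun l => ap E14 l) q L₁ K₁ :=
    hypK_of H.apev hSy hq hco hodd1 h2 h7 hN
  have hmgen : ∀ p : ℕ, p.Prime → p ∣ m → ¬ p ∣ 14 * q ∧
      ∀ t : (ZMod q)ˣ, (t : ZMod q) = (p : ZMod q) →
        ∀ x : GG q L₁ K₁, x ∈ Subgroup.zpowers (mkG q L₁ K₁ t) := by
    intro p hp hpm
    obtain ⟨h3, h4, h5⟩ := hP14 p (hmP p hp hpm)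
    refine ⟨?_, fun t ht => ?_⟩
    · intro h6
      rcases (hp.dvd_mul).1 h6 with h6 | h6
      · exact h3 h6
      · exact h4 h6
    · exact gen_of_prime (K := K₁) (L := L₁) Pool.Agent.Y692.XT.inert hp ht (prime_tr eK p h5)
  obtain ⟨G₀, Pr, hG₀, hPr, hPr1, htop, hE0, hE, hbase⟩ := ana Pool.Agent.Y884.XT.s_lk H.hecke
    H.cond H.cl H.dec H.nz hSy hypK hmo hmsq hmgen ι F₁ hF₁2
  -- the ranks
  have hreal : ∀ w : InfinitePlace K₁, w.IsReal := by
    obtain ⟨φ', -⟩ := exists_phi q L₁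
    exact real_place (φ := φ') hypK.hre
  have hOne : ∀ d ∈ S, Odd d ∧ OneP K₁ d := by
    intro d hd
    obtain ⟨h3, h4, h5⟩ := hS d hd
    refine ⟨Int.odd_iff.2 (by omega), fun p hp hpd v w hv hw => ?_⟩
    obtain ⟨-, h6⟩ := h5 p hp hpd
    rcases h6 with h6 | h6
    · have key : ∀ (q' : ℕ) [NeZero q'] (M : Type) [Field M] [NumberField M]
          [IsCyclotomicExtension {q'} ℚ M], IsPrimePow q' → p ∣ q' →
          ∀ (K' : IntermediateField ℚ M) (v w : HeightOneSpectrum (𝓞 K')),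
          ((p : ℕ) : 𝓞 K') ∈ v.asIdeal → ((p : ℕ) : 𝓞 K') ∈ w.asIdeal → v = w := by
        intro q' hz M _ _ _ hq' hpq' K' v w hv hw
        obtain ⟨l, k, hl, hk, rfl⟩ := hq'
        have hl' := hl.nat_prime
        have h4 : p = l := (Nat.prime_dvd_prime_iff_eq hp hl').1 (hp.dvd_of_dvd_pow hpq')
        subst h4
        obtain ⟨j, rfl⟩ : ∃ j, k = j + 1 := ⟨k - 1, by omega⟩
        exact H.ram p j hl' M K' v w hv hw
      exact key q L₁ hq h6 K₁ v w hv hw
    · obtain ⟨u, -, hu⟩ := place_unique hp (prime_tr eK p h6)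
      rw [(hu v).1 hv, (hu w).1 hw]
  have hr1 := (rank_stable H.qf H.deg2 H.sup H.tw H.rke K K₁ eK hreal hN hodd1 hodd
    (by exact_mod_cast h2) (by exact_mod_cast h7) S hOne).2 F₀ F hF₀ hF 1 odd_one
    (fun p hp h1 => by
      exfalso
      have h3 : (p : ℤ) ≤ 1 := Int.le_of_dvd one_pos h1
      have := hp.two_le
      omega)
  refine ⟨G₀, fun z => G₀ z * Pr z, hG₀, hG₀.mul hPr, fun z hz => H.tr F₁ F₀ e0 z _ (hE0 z hz),
    fun z hz => H.tr _ F eF z _ (hE z hz), ?_, htop, hr1, ?_⟩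
  · have h3 : analyticOrderAt (fun z => G₀ z * Pr z) 1 =
        analyticOrderAt G₀ 1 + analyticOrderAt Pr 1 :=
      analyticOrderAt_mul (hG₀.analyticAt 1) (hPr.analyticAt 1)
    have h4 : analyticOrderAt Pr 1 = 0 := analyticOrderAt_eq_zero.2 (Or.inr hPr1)
    rw [h3, h4, add_zero]
  · -- the base field
    have hsqS : ∀ d ∈ S, Squarefree d := fun d hd => (hS d hd).1
    have hGd : ∀ d ∈ S, GT d.natAbs ∧ 0 < d := by
      intro d hd
      obtain ⟨D, r, hr, h3, h4⟩ := hG {d} (Finset.singleton_subset_iff.2 hd)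
      rw [Finset.prod_singleton] at h3
      have h5 : IsUnit (r : ℤ) := by
        refine hsqS d hd _ ⟨(D : ℤ), ?_⟩
        rw [h3]
        push_cast
        ring
      have h6 : r = 1 := by
        rw [Int.isUnit_iff] at h5
        omega
      subst h6
      have h7 : d = (D : ℤ) := by
        rw [h3]
        push_cast
        ring
      subst h7
      rw [Int.natAbs_natCast]
      exact ⟨h4, by exact_mod_cast Nat.pos_of_ne_zero h4.sqf.ne_zero⟩
    have hS02 : ∀ p ∈ S0, p.Prime ∧ p ≠ 2 := by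
      intro p hp
      obtain ⟨d, hd, h3, h4⟩ := (hmemS0 p).1 hp
      have := ((hGd d hd).1.prime4 h3 (Int.natCast_dvd.1 h4)).1
      exact ⟨h3, by rintro rfl; omega⟩
    have hUS0 : ∀ U ⊆ S, ∀ d ∈ U, ∀ p : ℕ, p.Prime → (p : ℤ) ∣ d → p ∈ S0 :=
      fun U hU d hd p hp hpd => (hmemS0 p).2 ⟨d, hU hd, hp, hpd⟩
    refine ⟨hbase ?_, ?_⟩
    · intro χ hχ
      refine base_ne_gen hSy F₁ S0 {T | ∃ U ⊆ S, T = od S0 U} hS02 ⟨∅, Finset.empty_subset _, ?_⟩
        ?_ ?_ (hdivN S0 (Finset.Subset.refl _)) ?_ χ hχ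
      · unfold od cp
        simp
      · rintro _ ⟨U, hU, rfl⟩ _ ⟨V, hV, rfl⟩
        refine ⟨U ∆ V, ?_, od_symm S0 U V⟩
        intro x hx
        rcases Finset.mem_symmDiff.1 hx with h | h
        · exact hU h.1
        · exact hV h.1
      · rintro _ ⟨U, hU, rfl⟩ -
        obtain ⟨D, r, hr, h3, h4⟩ := hG U hU
        rw [dd_od hS0p (fun d hd => hsqS d (hU hd)) (hUS0 U hU) hr h3 h4.sqf]
        exact h4
      · -- the field
        intro x hx
        set ZL : Set L := {z : L | ∃ T ∈ {T | ∃ U ⊆ S, T = od S0 U}, T ⊆ S0 ∧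
          z ^ 2 = ((disc T : ℤ) : L)} with hZL
        have h3 : F₀ ≤ (IntermediateField.adjoin ℚ ZL).map φ := by
          rw [hF₀]
          unfold mq
          rw [IntermediateField.adjoin_le_iff]
          rintro z ⟨d, hd, hz⟩
          obtain ⟨h4, h5, h6⟩ := hdS d hd
          obtain ⟨g, hg⟩ := sqrt_memZ (q * m) L d h4 h5 h6
          obtain ⟨hGT, hd0⟩ := hGd d hd
          have hod : od S0 {d} = d.natAbs.primeFactors := by
            ext p
            unfold od cp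
            rw [Finset.mem_filter, Finset.sum_singleton, Nat.mem_primeFactors]
            constructor
            · rintro ⟨h7, h8⟩
              by_cases h9 : (p : ℤ) ∣ d
              · exact ⟨hS0p p h7, Int.natCast_dvd.1 h9, by omega⟩
              · rw [if_neg h9] at h8
                exact absurd h8 (by decide)
            · rintro ⟨h7, h8, -⟩
              have h9 : (p : ℤ) ∣ d := Int.natCast_dvd.2 h8
              exact ⟨(hmemS0 p).2 ⟨d, hd, h7, h9⟩, if_pos h9⟩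
          have hdisc : disc d.natAbs.primeFactors = d := by
            unfold disc
            have h7 : ∀ p ∈ d.natAbs.primeFactors, (-1 : ℤ) ^ ((p - 1) / 2) * (p : ℤ) = (p : ℤ) := by
              intro p hp
              have h8 := (hGT.prime4 (Nat.prime_of_mem_primeFactors hp)
                (Nat.dvd_of_mem_primeFactors hp)).1
              have h9 : Even ((p - 1) / 2) := by
                rw [Nat.even_iff]
                omega
              rw [h9.neg_one_pow, one_mul]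
            rw [prod_congr rfl h7, ← Nat.cast_prod,
              Nat.prod_primeFactors_of_squarefree (Int.squarefree_natAbs.2 h6)]
            omega
          have hgZ : g ∈ ZL := ⟨d.natAbs.primeFactors, ⟨{d}, Finset.singleton_subset_iff.2 hd,
            hod.symm⟩, subset_biUnion_of_mem (fun d => d.natAbs.primeFactors) hd, by rw [hdisc, hg]⟩
          have h10 : (φ g) ^ 2 = (d : ℂ) := by rw [← map_pow, hg, map_intCast]
          rcases sq_eq_sq_iff_eq_or_eq_neg.1 (hz.trans h10.symm) with h | h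
          · exact ⟨g, IntermediateField.subset_adjoin ℚ _ hgZ, h.symm⟩
          · exact ⟨-g, (IntermediateField.adjoin ℚ ZL).neg_mem (IntermediateField.subset_adjoin ℚ _ hgZ), by
              show φ (-g) = z
              rw [map_neg, h]⟩
        have h4 : φ x ∈ F₀ := by
          rw [← hF₁]
          exact ⟨x, hx, rfl⟩
        obtain ⟨y, hy, hyx⟩ := h3 h4
        have h5 : y = x := φ.toRingHom.injective hyx
        rw [← h5]
        exact hy
    · refine (rank_zero_gen H.qf H.deg2 H.rke S fun d hd => (hGd d hd).2.ne').2 F₀ hF₀ 1 one_ne_zero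
        fun U hU => ?_
      obtain ⟨D, r, hr, h3, h4⟩ := hG U hU
      rw [one_mul, h3, RR_sq h4.sqf.ne_zero hr]
      exact h4.RR_zero

end Pool.Agent.U115.MQ
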