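import Pool.Agent.Y682.XD.Fin
import Pool.Agent.Y275.XD.Basel
import Pool.Agent.Y500.XD.Zero
import Pool.Agent.Y153.XD.Sq
import Pool.Agent.Y687.K2.RankForm

/-!
# `X_0(14)` over multiquadratic fields: twists with at most two split primes

The central values and the ranks of the twists of `X_0(14)` by the elements of the group generated by
the radicands.
-/

set_option autoImplicit false

open Finset NumberField IsCyclotomicExtension.Rat H300.HW IsDedekindDomain
open scoped symmDiff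

namespace Pool.Agent.U115.MQ

open Pool.Agent.W97.MT (ap E14 II II_conj II_add_one)
open Pool.Agent.Y687 hiding RR
open Pool.Agent.Y682.XD
open Pool.Agent.Y682.XT (II_re triv_val val_neg_unit)
open Pool.Agent.Y18.BSD (dd disc jc)

/-- the twists: at most two split primes, any number of inert primes, and the criterion -/
def GT (D : ℕ) : Prop :=
  (∃ S : Finset ℕ, (∀ q ∈ S, Inert q) ∧ D = ∏ q ∈ S, q) ∨
  (∃ (p : ℕ) (S : Finset ℕ), Split p ∧ (∀ q ∈ S, Inert q) ∧ ¬ 8 ∣ NN (∏ q ∈ S, q) p ∧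
    D = p * ∏ q ∈ S, q) ∨
  (∃ (p1 p2 : ℕ) (S : Finset ℕ), p1 ≠ p2 ∧ Split p1 ∧ Split p2 ∧ (∀ q ∈ S, Inert q) ∧
    Cond2 p1 p2 (∏ q ∈ S, q) ∧ D = p1 * p2 * ∏ q ∈ S, q)

theorem GT.mod4 {D : ℕ} (h : GT D) : D % 4 = 1 := by
  rcases h with ⟨S, hS, rfl⟩ | ⟨p, S, hp, hS, -, rfl⟩ | ⟨p1, p2, S, -, h1, h2, hS, -, rfl⟩
  · exact prod_mod_four hS
  · have e := prod_mod_four hS
    have e1 : p % 4 = 1 := by have := hp.2.1; omega
    rw [Nat.mul_mod, e, e1]
  · have e := prod_mod_four hS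
    have e1 : p1 % 4 = 1 := by have := h1.2.1; omega
    have e2 : p2 % 4 = 1 := by have := h2.2.1; omega
    rw [Nat.mul_mod, Nat.mul_mod p1 p2, e, e1, e2]

theorem GT.sqf {D : ℕ} (h : GT D) : Squarefree D := by
  rcases h with ⟨S, hS, rfl⟩ | ⟨p, S, hp, hS, -, rfl⟩ | ⟨p1, p2, S, hne, h1, h2, hS, -, rfl⟩
  · exact squarefree_prod fun q hq => (hS q hq).1
  · rw [Nat.squarefree_mul_iff]
    exact ⟨(Nat.Prime.coprime_iff_not_dvd hp.1).2 (split_not_dvd hp hS), hp.1.squarefree,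
      squarefree_prod fun q hq => (hS q hq).1⟩
  · exact two_sqf hne h1 h2 hS

/-- the symbol sums do not vanish -/
theorem GT.SS_ne {D : ℕ} (h : GT D) {s : ℚ → ℤ} (hs : Symb2 s (fun q => ap E14 q)) :
    SS s D D ≠ 0 := by
  rcases h with ⟨S, hS, rfl⟩ | ⟨p, S, hp, hS, hN, rfl⟩ | ⟨p1, p2, S, hne, h1, h2, hS, hN, rfl⟩
  · obtain ⟨k, hk⟩ := L_inert hs.toSymb S
      (fun q hq => II_facts q (hS q hq).1 (hS q hq).2.1 (hS q hq).2.2)
    rw [hk]
    refine mul_ne_zero (by positivity) ?_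
    omega
  · obtain ⟨k1, k2⟩ := SS_facts p hp.1 hp.2.1 hp.2.2
    exact L_ne_zero hs.toSymb hp.1 hp.2.1 k1 k2
      (fun q hq => II_facts q (hS q hq).1 (hS q hq).2.1 (hS q hq).2.2) (split_notMem hp hS)
      (split_facts hp hS hN).1
  · have : Fact p1.Prime := ⟨h1.1⟩
    have : Fact p2.Prime := ⟨h2.1⟩
    have hcop12 : Nat.Coprime p1 p2 := (Nat.coprime_primes h1.1 h2.1).2 hne
    have hj : jacobiSym p1 p2 = 1 ∨ jacobiSym p1 p2 = -1 := by
      refine jacobiSym.eq_one_or_neg_one ?_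
      rw [Int.gcd_natCast_natCast]
      exact hcop12
    have hp10 : ((p1 : ℤ) : ZMod p2) ≠ 0 := by
      rw [Ne, ZMod.intCast_zmod_eq_zero_iff_dvd, Int.natCast_dvd_natCast]
      intro h
      exact hne ((Nat.prime_dvd_prime_iff_eq h2.1 h1.1).1 h).symm
    have hj1 : jacobiSym p1 p2 = 1 ↔ IsSquare (p1 : ZMod p2) := by
      rw [← jacobiSym.legendreSym.to_jacobiSym, legendreSym.eq_one_iff _ hp10]
      push_cast
      exact Iff.rfl
    have hA : (jacobiSym p1 p2 = 1 ∧ ¬ (8 : ℤ) ∣ ap E14 p1 - 2 * jacobiSym p1 (∏ q ∈ S, q) ∧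
          ¬ (8 : ℤ) ∣ ap E14 p2 - 2 * jacobiSym p2 (∏ q ∈ S, q)) ∨
        (jacobiSym p1 p2 = -1 ∧ (¬ (8 : ℤ) ∣ ap E14 p1 - 2 * jacobiSym p1 (∏ q ∈ S, q) ∨
          ¬ (8 : ℤ) ∣ ap E14 p2 - 2 * jacobiSym p2 (∏ q ∈ S, q))) := by
      rcases hN with ⟨a, b⟩ | ⟨a, b⟩
      · have a' := (split_facts h1 hS a).1
        have b' := (split_facts h2 hS b).1
        rcases hj with h | h
        · exact Or.inl ⟨h, a', b'⟩
        · exact Or.inr ⟨h, Or.inl a'⟩
      · right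
        refine ⟨hj.resolve_left fun h => a (hj1.1 h), ?_⟩
        rcases b with b | b
        · exact Or.inl (split_facts h1 hS b).1
        · exact Or.inr (split_facts h2 hS b).1
    have hneq := L2_ne_zero hs (split_sp h1) (split_sp h2) hne
      (fun q hq => II_facts q (hS q hq).1 (hS q hq).2.1 (hS q hq).2.2) (split_notMem h1 hS)
      (split_notMem h2 hS) hA
    rw [← mul_assoc] at hneq
    exact hneq

/-- the central values in terms of the symbols -/
theorem basel_gen {s : ℚ → ℤ} {Op : ℝ} (hOp : 0 < Op) (hs : Symb s (fun q => ap E14 q))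
    (hv : ∀ r : ℚ, (3 : ℝ) * (II r).re = s r * Op)
    (f : ℕ) [NeZero f] (hf4 : f % 4 = 1) (hSS : SS s f f ≠ 0) (ρ : DirichletCharacter ℂ f)
    (hρ : ∀ u : (ZMod f)ˣ, ρ (u : ZMod f) = (jacobiSym ((u : ZMod f).val : ℤ) f : ℂ)) :
    ∑ u : (ZMod f)ˣ, ρ (u : ZMod f) * II (((u : ZMod f).val : ℚ) / f) ≠ 0 := by
  have hOp' : (Op : ℂ) ≠ 0 := by
    exact_mod_cast hOp.ne'
  rcases Nat.lt_or_ge 1 f with h1 | h1
  · have hkey : ∑ u : (ZMod f)ˣ, ρ (u : ZMod f) * II (((u : ZMod f).val : ℚ) / f) =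
        (Op / 3 : ℂ) * ((SS s f f : ℤ) : ℂ) := by
      have hconj : ∑ u : (ZMod f)ˣ, ρ (u : ZMod f) * II (((u : ZMod f).val : ℚ) / f) =
          ∑ u : (ZMod f)ˣ, ρ (u : ZMod f) *
            (starRingEnd ℂ) (II (((u : ZMod f).val : ℚ) / f)) := by
        refine Fintype.sum_equiv (Equiv.neg (ZMod f)ˣ) _ _ fun u => ?_
        rw [Equiv.neg_apply]
        have h4 : II (((u : ZMod f).val : ℚ) / f) =
            (starRingEnd ℂ) (II ((((-u : (ZMod f)ˣ) : ZMod f).val : ℚ) / f)) := by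
          rw [val_neg_unit h1, ← II_conj]
          rw [← II_add_one (-(((f - (u : ZMod f).val : ℕ) : ℚ) / f))]
          congr 1
          have hf0 : (f : ℚ) ≠ 0 := by exact_mod_cast NeZero.ne f
          rw [Nat.cast_sub (ZMod.val_lt (u : ZMod f)).le]
          field_simp
          ring
        have h5 : ρ ((-u : (ZMod f)ˣ) : ZMod f) = ρ (u : ZMod f) := by
          rw [hρ, hρ, val_neg_unit h1]
          congr 1
          have e1 : jacobiSym ((f - (u : ZMod f).val : ℕ) : ℤ) f =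
              jacobiSym (-1 * ((u : ZMod f).val : ℤ)) f := by
            refine jacobiSym.mod_left' ?_
            rw [Nat.cast_sub (ZMod.val_lt (u : ZMod f)).le]
            rw [show (f : ℤ) - ((u : ZMod f).val : ℤ) = -1 * ((u : ZMod f).val : ℤ) + f by ring,
              Int.add_emod_right]
          have e2 : jacobiSym (-1) f = 1 := by
            rw [jacobiSym.at_neg_one (Nat.odd_iff.2 (by omega)),
              ZMod.χ₄_nat_one_mod_four hf4]
          rw [e1, jacobiSym.mul_left, e2, one_mul]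
        rw [h4, h5]
      have h6 : 2 * ∑ u : (ZMod f)ˣ, ρ (u : ZMod f) * II (((u : ZMod f).val : ℚ) / f) =
          2 * ((Op / 3 : ℂ) * ((SS s f f : ℤ) : ℂ)) := by
        rw [two_mul]
        nth_rewrite 2 [hconj]
        rw [← Finset.sum_add_distrib]
        have h7 : ∀ u : (ZMod f)ˣ, ρ (u : ZMod f) * II (((u : ZMod f).val : ℚ) / f) +
            ρ (u : ZMod f) * (starRingEnd ℂ) (II (((u : ZMod f).val : ℚ) / f)) =
            (fun a : ℕ => (2 * (Op / 3 : ℂ)) * ((jacobiSym (a : ℤ) f : ℂ) *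
              ((s ((a : ℚ) / f) : ℤ) : ℂ))) (u : ZMod f).val := by
          intro u
          rw [← mul_add, Complex.add_conj, hρ]
          push_cast
          rw [II_re hv]
          ring
        rw [Finset.sum_congr rfl fun u _ => h7 u, Pool.Agent.Y275.XD.sum_units
          (fun a : ℕ => (2 * (Op / 3 : ℂ)) * ((jacobiSym (a : ℤ) f : ℂ) *
          ((s ((a : ℚ) / f) : ℤ) : ℂ)))]
        unfold SS
        push_cast
        rw [Finset.mul_sum, Finset.mul_sum]
        refine Finset.sum_congr rfl fun a _ => ?_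
        ring
      exact mul_left_cancel₀ two_ne_zero h6
    rw [hkey]
    refine mul_ne_zero (div_ne_zero hOp' (by norm_num)) ?_
    exact_mod_cast hSS
  · have hf1 : f = 1 := by
      have := NeZero.ne f
      omega
    rw [(triv_val hv hf1 ρ).2]
    obtain ⟨k, hk⟩ := hs.odd0
    refine div_ne_zero (mul_ne_zero ?_ hOp') (by norm_num)
    have : s 0 ≠ 0 := by omega
    exact_mod_cast this

/-- the characters of the multiquadratic field -/
theorem base_ne_gen {s t : ℚ → ℤ} {Op Om : ℝ} (hS : Sy s t Op Om) {N : ℕ} [NeZero N]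
    {L : Type} [Field L] [NumberField L] [IsCyclotomicExtension {N} ℚ L]
    (F₁ : IntermediateField ℚ L) (S0 : Finset ℕ) (X : Set (Finset ℕ))
    (h0 : ∀ q ∈ S0, q.Prime ∧ q ≠ 2) (hX0 : ∅ ∈ X) (hXc : ∀ S ∈ X, ∀ T ∈ X, S ∆ T ∈ X)
    (hX : ∀ T ∈ X, T ⊆ S0 → GT (dd T))
    (hn : dd S0 ∣ N)
    (hF : F₁ ≤ IntermediateField.adjoin ℚ {z : L | ∃ T ∈ X, T ⊆ S0 ∧ z ^ 2 = ((disc T : ℤ) : L)})
    (χ : DirichletCharacter ℂ N) (hχ : χ ∈ YY N L F₁) :
    haveI : NeZero χ.conductor := ⟨χ.conductor_ne_zero⟩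
    ∑ u : (ZMod χ.conductor)ˣ, (χ.primitiveCharacter)⁻¹ (u : ZMod χ.conductor) *
      II (((u : ZMod χ.conductor).val : ℚ) / χ.conductor) ≠ 0 := by
  have hnz : NeZero χ.conductor := ⟨χ.conductor_ne_zero⟩
  obtain ⟨T, hTX, hTS, hT⟩ := Pool.Agent.Y18.NF.YY_sub N L X S0 h0 hn hX0 hXc F₁ hF hχ
  have hTp : ∀ q ∈ T, q.Prime ∧ q ≠ 2 := fun q hq => h0 q (hTS hq)
  have hddT : dd T ∣ dd S0 := Finset.prod_dvd_prod_of_subset _ _ _ hTS
  have hTn : dd T ∣ N := hddT.trans hn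
  have hGT := hX T hTX hTS
  have hodd : Odd (dd T) := Nat.odd_iff.2 (by have := hGT.mod4; omega)
  obtain ⟨ψ, hψ, hψj⟩ := H385.jac_char (dd T) hodd hGT.sqf
  have h2 : χ = DirichletCharacter.changeLevel hTn ψ := by
    apply MulChar.ext
    intro u
    rw [hT u, DirichletCharacter.changeLevel_eq_cast_of_dvd]
    have := hψj (u : ZMod N).val
    rw [ZMod.natCast_val] at this
    exact this.symm
  have hcond : χ.conductor = dd T := by
    rw [h2]
    exact conductor_changeLevel hTn hψ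
  refine basel_gen hS.pos hS.H.toSymb hS.re χ.conductor (by rw [hcond]; exact hGT.mod4)
    (by rw [hcond]; exact hGT.SS_ne hS.H) (χ.primitiveCharacter)⁻¹ fun u => ?_
  have h3 := Pool.Agent.Y18.NF.pv_jac N hTp hTn hT (u : ZMod χ.conductor).val
  rw [ZMod.natCast_val, ZMod.cast_id', id] at h3
  have h5 : jacobiSym ((u : ZMod χ.conductor).val : ℤ) χ.conductor =
      jacobiSym ((u : ZMod χ.conductor).val : ℤ) (dd T) := congrArg _ hcond
  rw [MulChar.inv_apply_eq_inv', h3, h5]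
  have h4 : jacobiSym ((u : ZMod χ.conductor).val : ℤ) (dd T) = 1 ∨
      jacobiSym ((u : ZMod χ.conductor).val : ℤ) (dd T) = -1 := by
    rw [← h5]
    apply jacobiSym.eq_one_or_neg_one
    rw [Int.gcd_natCast_natCast]
    exact ZMod.val_coe_unit_coprime u
  rcases h4 with h4 | h4
  · rw [h4]; norm_num
  · rw [h4]; norm_num

/-! ### The ranks -/

theorem rk_zero_of_set {D : ℕ}
    (h : {q : ℚ × ℚ | q.2 ^ 2 = q.1 ^ 3 + ((5805 * (D : ℤ) ^ 2 : ℤ) : ℚ) * q.1 +
      ((-285714 * (D : ℤ) ^ 3 : ℤ) : ℚ)}.Finite) : RR ℚ (D : ℤ) = 0 := by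
  classical
  unfold RR Pool.Agent.TH841.NF.D.rk
  let _ := Classical.decEq ℚ
  refine finrank_zero_of_finite ?_
  have := h.to_subtype
  let W := (Pool.Agent.Y682.gc (13 * (D : ℤ)) (128 * (D : ℤ) ^ 2) ℚ).toAffine
  have heq : ∀ x y : ℚ, W.Equation x y → (27 * y) ^ 2 = (9 * x + 39 * D) ^ 3 +
      ((5805 * (D : ℤ) ^ 2 : ℤ) : ℚ) * (9 * x + 39 * D) + ((-285714 * (D : ℤ) ^ 3 : ℤ) : ℚ) := by
    intro x y hxy
    rw [WeierstrassCurve.Affine.equation_iff] at hxy
    have e1 : W.a₁ = 0 := rfl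
    have e2 : W.a₂ = ((13 * (D : ℤ) : ℤ) : ℚ) := rfl
    have e3 : W.a₃ = 0 := rfl
    have e4 : W.a₄ = ((128 * (D : ℤ) ^ 2 : ℤ) : ℚ) := rfl
    have e6 : W.a₆ = 0 := rfl
    rw [e1, e2, e3, e4, e6] at hxy
    push_cast at hxy ⊢
    linear_combination 729 * hxy
  let g : W.Point → Option {q : ℚ × ℚ | q.2 ^ 2 = q.1 ^ 3 + ((5805 * (D : ℤ) ^ 2 : ℤ) : ℚ) * q.1 +
      ((-285714 * (D : ℤ) ^ 3 : ℤ) : ℚ)} := fun P =>
    match P with
    | .zero => none
    | .some x y hxy => some ⟨(9 * x + 39 * D, 27 * y), heq x y hxy.1⟩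
  refine Finite.of_injective g ?_
  intro P Q hPQ
  rcases P with _ | ⟨x, y, hxy⟩ <;> rcases Q with _ | ⟨x', y', hxy'⟩
  · rfl
  · simp [g] at hPQ
  · simp [g] at hPQ
  · simp only [g, Option.some.injEq, Subtype.mk.injEq, Prod.mk.injEq] at hPQ
    obtain ⟨h1, h2⟩ := hPQ
    have e1 : x = x' := by linarith
    have e2 : y = y' := by linarith
    subst e1
    subst e2
    rfl

theorem GT.RR_zero {D : ℕ} (h : GT D) : RR ℚ (D : ℤ) = 0 := by
  have hD := h.sqf.ne_zero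
  rcases h with ⟨S, hS, rfl⟩ | ⟨p, S, hp, hS, hN, rfl⟩ | ⟨p1, p2, S, hne, h1, h2, hS, hN, rfl⟩
  · exact Pool.Agent.Y500.XD.s_zero S hS
  · exact rk_zero_of_set (main hp hS hN).2
  · exact rk_zero_of_set (main2 hne h1 h2 hS hN).2

theorem RR_sq {D r : ℕ} (hD : D ≠ 0) (hr : r ≠ 0) : RR ℚ ((D * r ^ 2 : ℕ) : ℤ) = RR ℚ (D : ℤ) := by
  have ha2 : ((D : ℤ)) ^ 2 ≠ 0 := pow_ne_zero 2 (by exact_mod_cast hD)
  have h2 := Pool.Agent.Y153.XD.s_sq ℚ (13 * (D : ℤ)) (128 * (D : ℤ) ^ 2) r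
    (mul_ne_zero (by norm_num) ha2) (by
    have e1 : (13 * (D : ℤ)) ^ 2 - 4 * (128 * (D : ℤ) ^ 2) = -343 * (D : ℤ) ^ 2 := by ring
    rw [e1]
    exact mul_ne_zero (by norm_num) ha2) (by exact_mod_cast hr)
  unfold RR
  rw [← h2]
  congr 2
  · push_cast; ring
  · push_cast; ring

/-- the rank over a multiquadratic field -/
theorem rank_zero_gen (hQF : S_QF) (hDEG : S_DEG2) (hRKE : S_RKE)
    (S : Finset ℤ) : (∀ d ∈ S, d ≠ 0) → FiniteDimensional ℚ (mq S) ∧
    ∀ (F₀ : IntermediateField ℚ ℂ) [NumberField F₀], F₀ = mq S →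
      ∀ c : ℤ, c ≠ 0 → (∀ U ⊆ S, RR ℚ (c * ∏ d ∈ U, d) = 0) → RR F₀ c = 0 := by
  classical
  induction S using Finset.induction_on with
  | empty =>
    intro _
    refine ⟨?_, ?_⟩
    · rw [mq_empty]; infer_instance
    · intro F₀ _ hF₀ c hc hU
      rw [mq_empty] at hF₀
      subst hF₀
      have hq : RR ℚ c = RR (⊥ : IntermediateField ℚ ℂ) c :=
        RR_iso hRKE (IntermediateField.botEquiv ℚ ℂ).symm.toRingEquiv hc
      rw [← hq]
      have := hU ∅ (Finset.empty_subset _)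
      simpa using this
  | insert d S hdS ih =>
    intro hS
    obtain ⟨hfd, ih'⟩ := ih (fun e he => hS e (Finset.mem_insert_of_mem he))
    have hd := hS d (Finset.mem_insert_self _ _)
    obtain ⟨z, hz⟩ : ∃ z : ℂ, z ^ 2 = (d : ℂ) := IsAlgClosed.exists_pow_nat_eq _ (by norm_num)
    have hins := mq_insert S d hz
    have hG₀ : NumberField (mq S) := { to_charZero := inferInstance, to_finiteDimensional := hfd }
    by_cases hz0 : z ∈ mq S
    · have hins' : mq (insert d S) = mq S := by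
        rw [hins]
        exact sup_eq_left.2 ((IntermediateField.adjoin_simple_le_iff).2 hz0)
      rw [hins']
      exact ⟨hfd, fun F₀ _ hF₀ c hc hU => ih' F₀ hF₀ c hc fun U hUS =>
        hU U (hUS.trans (Finset.subset_insert _ _))⟩
    · refine ⟨?_, ?_⟩
      · rw [hins]
        have : FiniteDimensional ℚ (IntermediateField.adjoin ℚ {z} : IntermediateField ℚ ℂ) :=
          IntermediateField.adjoin.finiteDimensional ⟨Polynomial.X ^ 2 - Polynomial.C (d : ℚ),
            Polynomial.monic_X_pow_sub_C _ (by norm_num), by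
              rw [Polynomial.eval₂_sub, Polynomial.eval₂_pow, Polynomial.eval₂_X,
                Polynomial.eval₂_C, hz, map_intCast, sub_self]⟩
        exact IntermediateField.finiteDimensional_sup _ _
      · intro F₀ _ hF₀ c hc hU
        rw [RR_quad hQF hDEG (mq S) F₀ hd hz0 hz (hF₀.trans hins) hc,
          ih' (mq S) rfl c hc fun U hUS => hU U (hUS.trans (Finset.subset_insert _ _)),
          ih' (mq S) rfl (c * d) (mul_ne_zero hc hd) fun U hUS => ?_]
        have hdU : d ∉ U := fun h => hdS (hUS h)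
        have := hU (insert d U) (Finset.insert_subset_insert _ hUS)
        rw [Finset.prod_insert hdU, ← mul_assoc] at this
        exact this

end Pool.Agent.U115.MQ
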