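import Pool.Agent.TH869.EVF.AP

/-!
# The natural density of the primes in sets of residue classes
-/

set_option autoImplicit false

namespace Pool.Agent.U115.PD

open Finset Filter Topology ArithmeticFunction
open Pool.Agent.TH869.EVF (PA class_sum_le)

/-- the primes `p ≤ X` whose class modulo `M` is in `A` -/
def cnt {M : ℕ} (A : Finset (ZMod M)) (X : ℕ) : Finset ℕ :=
  (Icc 1 X).filter fun p : ℕ => p.Prime ∧ (p : ZMod M) ∈ A

theorem sum_units (M : ℕ) [NeZero M] (x : ℝ) :
    ∑ a ∈ (univ : Finset (ZMod M)).filter (fun a => IsUnit a), ((PA M a.val x).card : ℝ) ≤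
      (Nat.primeCounting ⌊x⌋₊ : ℝ) := by
  classical
  have h1 : ∑ a ∈ (univ : Finset (ZMod M)).filter (fun a => IsUnit a), ((PA M a.val x).card : ℝ) =
      (((univ : Finset (ZMod M)).filter (fun a => IsUnit a)).biUnion fun a => PA M a.val x).card := by
    rw [card_biUnion]
    · push_cast
      rfl
    · intro a _ b _ hab
      rw [Function.onFun, disjoint_left]
      intro p hp hp'
      unfold PA at hp hp'
      rw [mem_filter] at hp hp'
      apply hab
      have e1 := hp.2.2
      have e2 := hp'.2.2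
      rw [ZMod.natCast_zmod_val] at e1 e2
      exact e1.symm.trans e2
  rw [h1, Nat.primeCounting, Nat.primeCounting', Nat.count_eq_card_filter_range]
  norm_cast
  refine card_le_card ?_
  intro p hp
  rw [mem_biUnion] at hp
  obtain ⟨a, -, ha⟩ := hp
  unfold PA at ha
  rw [mem_filter, mem_Icc] at ha
  rw [mem_filter, mem_range]
  exact ⟨by omega, ha.2.1⟩

theorem psi_theta :
    Tendsto (fun x : ℝ => (Chebyshev.psi x - Chebyshev.theta x) / x) atTop (𝓝 0) := by
  obtain ⟨C, hC⟩ := Chebyshev.psi_sub_theta_le_mul_sqrt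
  have h2 : Tendsto (fun x : ℝ => C * (Real.sqrt x)⁻¹) atTop (𝓝 0) := by
    have := (tendsto_inv_atTop_zero.comp Real.tendsto_sqrt_atTop).const_mul C
    simpa [Function.comp_def] using this
  refine squeeze_zero' ?_ ?_ h2
  · filter_upwards [eventually_gt_atTop 0] with x hx
    exact div_nonneg (sub_nonneg.mpr (Chebyshev.theta_le_psi x)) hx.le
  · filter_upwards [eventually_gt_atTop 0] with x hx
    rw [div_le_iff₀ hx]
    refine (hC x).trans (le_of_eq ?_)
    have hs : 0 < Real.sqrt x := Real.sqrt_pos.mpr hx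
    have hx2 : Real.sqrt x * Real.sqrt x = x := Real.mul_self_sqrt hx.le
    field_simp
    rw [sq, hx2]

/-- the number of the primes in a residue class -/
theorem class_tendsto (M : ℕ) [NeZero M] (a : ZMod M) (ha : IsUnit a) :
    Tendsto (fun x : ℝ => ((PA M a.val x).card : ℝ) * Real.log x / x) atTop
      (𝓝 ((M.totient : ℝ)⁻¹)) := by
  classical
  set U := (univ : Finset (ZMod M)).filter (fun a => IsUnit a) with hU
  have hUc : U.card = M.totient := by
    rw [hU, ← ZMod.card_units_eq_totient, ← card_univ]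
    symm
    refine card_bij (fun (u : (ZMod M)ˣ) _ => (u : ZMod M)) ?_ ?_ ?_
    · intro u _
      rw [mem_filter]
      exact ⟨mem_univ _, u.isUnit⟩
    · intro u _ v _ h
      exact Units.ext h
    · intro b hb
      rw [mem_filter] at hb
      obtain ⟨u, hu⟩ := hb.2
      exact ⟨u, mem_univ _, hu⟩
  have haU : a ∈ U := by rw [hU, mem_filter]; exact ⟨mem_univ _, ha⟩
  have hφ : (0 : ℝ) < M.totient := by exact_mod_cast Nat.totient_pos.2 (NeZero.pos M)
  let F : ZMod M → ℝ → ℝ := fun b x => (∑ k ∈ Icc 1 ⌊x⌋₊, vonMangoldt.residueClass b k) / x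
  let G : ZMod M → ℝ → ℝ := fun b x => F b x - (Chebyshev.psi x - Chebyshev.theta x) / x
  have hG : ∀ b : ZMod M, IsUnit b → Tendsto (G b) atTop (𝓝 ((M.totient : ℝ)⁻¹)) := by
    intro b hb
    have h1 := (Pool.Agent.Helper923.PNT.pnt_residueClass hb).sub psi_theta
    rw [sub_zero] at h1
    exact h1
  have hlow : ∀ b : ZMod M, ∀ x : ℝ, 1 ≤ x → G b x ≤ ((PA M b.val x).card : ℝ) * Real.log x / x := by
    intro b x hx
    have h1 := class_sum_le M b.val x hx
    rw [ZMod.natCast_zmod_val] at h1
    have hx0 : 0 < x := by linarith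
    show _ / x - _ / x ≤ _
    rw [← sub_div]
    exact div_le_div_of_nonneg_right (by linarith) hx0.le
  have hup : ∀ x : ℝ, 1 ≤ x → ((PA M a.val x).card : ℝ) * Real.log x / x ≤
      (Nat.primeCounting ⌊x⌋₊ : ℝ) * Real.log x / x - ∑ b ∈ U.erase a, G b x := by
    intro x hx
    have hx0 : 0 < x := by linarith
    have hl : 0 ≤ Real.log x := Real.log_nonneg hx
    have h1 := sum_units M x
    rw [← hU, ← add_sum_erase _ _ haU] at h1
    have h2 : ∑ b ∈ U.erase a, G b x ≤ ∑ b ∈ U.erase a, ((PA M b.val x).card : ℝ) * Real.log x / x :=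
      sum_le_sum fun b _ => hlow b x hx
    have h3 : ∑ b ∈ U.erase a, ((PA M b.val x).card : ℝ) * Real.log x / x =
        (∑ b ∈ U.erase a, ((PA M b.val x).card : ℝ)) * (Real.log x / x) := by
      rw [sum_mul]
      exact sum_congr rfl fun b _ => by ring
    have h4 : 0 ≤ Real.log x / x := div_nonneg hl hx0.le
    have h5 := mul_le_mul_of_nonneg_right h1 h4
    rw [add_mul] at h5
    have e1 : ((PA M a.val x).card : ℝ) * Real.log x / x =
      ((PA M a.val x).card : ℝ) * (Real.log x / x) := by ring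
    have e2 : (Nat.primeCounting ⌊x⌋₊ : ℝ) * Real.log x / x =
      (Nat.primeCounting ⌊x⌋₊ : ℝ) * (Real.log x / x) := by ring
    rw [e1, e2]
    linarith
  have hlim : Tendsto (fun x : ℝ => (Nat.primeCounting ⌊x⌋₊ : ℝ) * Real.log x / x -
      ∑ b ∈ U.erase a, G b x) atTop (𝓝 ((M.totient : ℝ)⁻¹)) := by
    have h1 : Tendsto (fun x : ℝ => ∑ b ∈ U.erase a, G b x) atTop
        (𝓝 (∑ b ∈ U.erase a, (M.totient : ℝ)⁻¹)) := by
      refine tendsto_finsetSum _ fun b hb => hG b ?_
      have := mem_of_mem_erase hb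
      rw [hU, mem_filter] at this
      exact this.2
    have h2 := Pool.Agent.Helper923.PNT.pi_tendsto.sub h1
    have e : (M.totient : ℝ)⁻¹ = 1 - ∑ b ∈ U.erase a, (M.totient : ℝ)⁻¹ := by
      rw [sum_const, card_erase_of_mem haU, hUc, nsmul_eq_mul, Nat.cast_sub, Nat.cast_one]
      · field_simp
        ring
      · exact Nat.totient_pos.2 (NeZero.pos M)
    rw [e]
    exact h2
  refine tendsto_of_tendsto_of_tendsto_of_le_of_le' (hG a ha) hlim ?_ ?_
  · filter_upwards [eventually_ge_atTop 1] with x hx using hlow a x hx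
  · filter_upwards [eventually_ge_atTop 1] with x hx using hup x hx

/-- the number of the primes in a set of residue classes -/
theorem cnt_tendsto (M : ℕ) [NeZero M] (A : Finset (ZMod M)) (hA : ∀ a ∈ A, IsUnit a) :
    Tendsto (fun X : ℕ => ((cnt A X).card : ℝ) * Real.log X / X) atTop
      (𝓝 ((A.card : ℝ) / M.totient)) := by
  classical
  have h1 : Tendsto (fun x : ℝ => ∑ a ∈ A, ((PA M a.val x).card : ℝ) * Real.log x / x) atTop
      (𝓝 (∑ a ∈ A, (M.totient : ℝ)⁻¹)) := tendsto_finsetSum _ fun a ha => class_tendsto M a (hA a ha)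
  have h2 := h1.comp (tendsto_natCast_atTop_atTop (R := ℝ))
  have e : ((A.card : ℝ) / M.totient) = ∑ a ∈ A, (M.totient : ℝ)⁻¹ := by
    rw [sum_const, nsmul_eq_mul, div_eq_mul_inv]
  rw [e]
  refine h2.congr fun X => ?_
  simp only [Function.comp]
  rw [← sum_div, ← sum_mul]
  congr 2
  have h3 : cnt A X = A.biUnion fun a => PA M a.val X := by
    ext p
    unfold cnt PA
    simp only [mem_filter, mem_biUnion, Nat.floor_natCast, ZMod.natCast_zmod_val]
    constructor
    · rintro ⟨h4, h5, h6⟩
      exact ⟨_, h6, h4, h5, rfl⟩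
    · rintro ⟨a, ha, h4, h5, h6⟩
      exact ⟨h4, h5, h6 ▸ ha⟩
  rw [h3, card_biUnion]
  · push_cast
    rfl
  · intro a _ b _ hab
    rw [Function.onFun, disjoint_left]
    intro p hp hp'
    unfold PA at hp hp'
    rw [mem_filter] at hp hp'
    apply hab
    have e1 := hp.2.2
    have e2 := hp'.2.2
    rw [ZMod.natCast_zmod_val] at e1 e2
    exact e1.symm.trans e2

/-- the relative density of the primes of a set of classes, up to finitely many primes -/
theorem ratio_tendsto (M : ℕ) [NeZero M] (A B : Finset (ZMod M)) (hA : ∀ a ∈ A, IsUnit a)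
    (hB : ∀ a ∈ B, IsUnit a) (hB0 : B.Nonempty) (S : Finset ℕ) (P Q : ℕ → Prop) [DecidablePred P]
    [DecidablePred Q] (hP : ∀ p : ℕ, p ∉ S → (P p ↔ p.Prime ∧ (p : ZMod M) ∈ A))
    (hQ : ∀ p : ℕ, p ∉ S → (Q p ↔ p.Prime ∧ (p : ZMod M) ∈ B)) :
    Tendsto (fun X : ℕ => (((Icc 1 X).filter P).card : ℝ) / (((Icc 1 X).filter Q).card : ℝ)) atTop
      (𝓝 ((A.card : ℝ) / B.card)) := by
  classical
  have hφ : (0 : ℝ) < M.totient := by exact_mod_cast Nat.totient_pos.2 (NeZero.pos M)
  have hlog : Tendsto (fun X : ℕ => Real.log X / X) atTop (𝓝 0) := by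
    have h1 := Real.isLittleO_log_id_atTop.tendsto_div_nhds_zero
    exact h1.comp (tendsto_natCast_atTop_atTop (R := ℝ))
  -- finitely many primes do not matter
  have key : ∀ (C : Finset (ZMod M)) (R : ℕ → Prop) [DecidablePred R], (∀ a ∈ C, IsUnit a) →
      (∀ p : ℕ, p ∉ S → (R p ↔ p.Prime ∧ (p : ZMod M) ∈ C)) →
      Tendsto (fun X : ℕ => (((Icc 1 X).filter R).card : ℝ) * Real.log X / X) atTop
        (𝓝 ((C.card : ℝ) / M.totient)) := by
    intro C R _ hC hR
    have h1 := cnt_tendsto M C hC
    have h2 : Tendsto (fun X : ℕ => (((Icc 1 X).filter R).card : ℝ) * Real.log X / X -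
        ((cnt C X).card : ℝ) * Real.log X / X) atTop (𝓝 0) := by
      have h3 : Tendsto (fun X : ℕ => (S.card : ℝ) * (Real.log X / X)) atTop (𝓝 0) := by
        have := hlog.const_mul (S.card : ℝ)
        rwa [mul_zero] at this
      refine squeeze_zero_norm' ?_ h3
      filter_upwards [eventually_ge_atTop 1] with X hX
      have hX1 : (1 : ℝ) ≤ X := by exact_mod_cast hX
      have hl : 0 ≤ Real.log X / X := div_nonneg (Real.log_nonneg hX1) (by linarith)
      have e1 : (((Icc 1 X).filter R).card : ℝ) * Real.log X / X -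
          ((cnt C X).card : ℝ) * Real.log X / X =
          ((((Icc 1 X).filter R).card : ℝ) - ((cnt C X).card : ℝ)) * (Real.log X / X) := by ring
      rw [e1, norm_mul, Real.norm_of_nonneg hl]
      refine mul_le_mul_of_nonneg_right ?_ hl
      rw [Real.norm_eq_abs, abs_le]
      have s1 : (Icc 1 X).filter R ⊆ cnt C X ∪ S := by
        intro p hp
        rw [mem_filter] at hp
        rw [mem_union]
        by_cases hpS : p ∈ S
        · exact Or.inr hpS
        · left
          unfold cnt
          rw [mem_filter]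
          exact ⟨hp.1, (hR p hpS).1 hp.2⟩
      have s2 : cnt C X ⊆ (Icc 1 X).filter R ∪ S := by
        intro p hp
        unfold cnt at hp
        rw [mem_filter] at hp
        rw [mem_union]
        by_cases hpS : p ∈ S
        · exact Or.inr hpS
        · left
          rw [mem_filter]
          exact ⟨hp.1, (hR p hpS).2 hp.2⟩
      have c1 : (((Icc 1 X).filter R).card : ℝ) ≤ ((cnt C X).card : ℝ) + S.card := by
        exact_mod_cast (card_le_card s1).trans (card_union_le _ _)
      have c2 : ((cnt C X).card : ℝ) ≤ (((Icc 1 X).filter R).card : ℝ) + S.card := by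
        exact_mod_cast (card_le_card s2).trans (card_union_le _ _)
      constructor <;> linarith
    have h3 := h2.add h1
    rw [zero_add] at h3
    refine h3.congr fun X => ?_
    ring
  have hBc : (0 : ℝ) < B.card := by exact_mod_cast hB0.card_pos
  have h1 := (key A P hA hP).div (key B Q hB hQ) (by positivity)
  have e : (A.card : ℝ) / M.totient / ((B.card : ℝ) / M.totient) = (A.card : ℝ) / B.card := by
    field_simp
  rw [e] at h1
  refine h1.congr' ?_
  filter_upwards [eventually_ge_atTop 2] with X hX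
  have hX1 : (1 : ℝ) < X := by exact_mod_cast hX
  have hl : 0 < Real.log X := Real.log_pos hX1
  have hX0 : (0 : ℝ) < X := by linarith
  have e1 : ∀ t : ℝ, t * Real.log X / X = t * (Real.log X / X) := fun t => by ring
  rw [Pi.div_apply, e1, e1, mul_div_mul_right _ _ (div_pos hl hX0).ne']

end Pool.Agent.U115.PD
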