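import Pool.Agent.U115.PD
import Pool.Agent.Y687.K2.RankForm

/-!
# The density of the inert primes that satisfy the criterion
-/

set_option autoImplicit false
set_option linter.style.haveILetI false
set_option linter.unusedVariables false

namespace Pool.Agent.U115.X14

open Finset Filter Topology
open Pool.Agent.Y687
open Pool.Agent.W97.MT (ap E14)
open Pool.Agent.U115.PD

/-- the condition at `p` is one on the symbol of `q` -/
theorem good_iff {p : ℕ} {S : Finset ℕ} (hp : Split p) (hS : ∀ q ∈ S, Inert q) :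
    ∃ τ : ℤ, (τ = 1 ∨ τ = -1) ∧ ∀ q : ℕ, Inert q → q ∉ S →
      (¬ 8 ∣ NN (∏ r ∈ insert q S, r) p ↔ jacobiSym q p = τ) := by
  classical
  obtain ⟨pp, p8, p7⟩ := hp
  haveI : Fact p.Prime := ⟨pp⟩
  obtain ⟨-, k, hk⟩ := SS_facts p pp p8 p7
  have hSp : ∀ q ∈ S, q.Prime := fun q hq => (hS q hq).1
  have hpm : ¬ p ∣ ∏ q ∈ S, q := by
    intro h
    have h1 := (hS p (dvd_prod_primes hSp pp h)).2.1
    omega
  have hjm : jacobiSym p (∏ q ∈ S, q) = 1 ∨ jacobiSym p (∏ q ∈ S, q) = -1 := by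
    refine jacobiSym.eq_one_or_neg_one ?_
    rw [Int.gcd_natCast_natCast]
    exact (Nat.Prime.coprime_iff_not_dvd pp).2 hpm
  obtain ⟨ρ, hρ, hρ2⟩ : ∃ ρ : ℤ, (ρ = 1 ∨ ρ = -1) ∧ ∀ J : ℤ, (J = 1 ∨ J = -1) →
      (¬ (8 : ℤ) ∣ 1 + p - J * ap E14 p ↔ J = ρ) := by
    rcases Int.even_or_odd k with ⟨j, hj⟩ | ⟨j, hj⟩
    · refine ⟨-1, Or.inr rfl, ?_⟩
      rintro J (rfl | rfl) <;> omega
    · refine ⟨1, Or.inl rfl, ?_⟩
      rintro J (rfl | rfl) <;> omega
  refine ⟨ρ * jacobiSym p (∏ q ∈ S, q), ?_, ?_⟩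
  · rcases hρ with h | h <;> rcases hjm with h' | h' <;> rw [h, h'] <;> norm_num
  intro q hI hqS
  have hq := hI.1
  have hqp : q ≠ p := by
    intro h
    have := hI.2.1
    omega
  have hI' : ∀ r ∈ insert q S, Inert r := by
    intro r hr
    rcases Finset.mem_insert.1 hr with rfl | hr
    · exact hI
    · exact hS r hr
  have hm4' := prod_mod_four hI'
  have hpm' : ¬ p ∣ ∏ r ∈ insert q S, r := by
    intro h
    have h1 := (hI' p (dvd_prod_primes (fun r hr => (hI' r hr).1) pp h)).2.1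
    omega
  haveI : Fact q.Prime := ⟨hq⟩
  have hq8 := hI.2.1
  have hrec : jacobiSym p q = jacobiSym q p :=
    jacobiSym.quadratic_reciprocity_one_mod_four (by omega) (hq.odd_of_ne_two (by omega))
  have hjq : jacobiSym q p = 1 ∨ jacobiSym q p = -1 := by
    refine jacobiSym.eq_one_or_neg_one ?_
    rw [Int.gcd_natCast_natCast]
    exact (Nat.coprime_primes hq pp).2 hqp
  have hprod : jacobiSym p (∏ r ∈ insert q S, r) = jacobiSym q p * jacobiSym p (∏ q ∈ S, q) := by
    haveI : NeZero q := ⟨hq.ne_zero⟩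
    haveI : NeZero (∏ q ∈ S, q) := ⟨Finset.prod_ne_zero_iff.2 fun r hr => (hSp r hr).ne_zero⟩
    rw [Finset.prod_insert hqS, jacobiSym.mul_right, hrec]
  have h1 := cnt_twist 5805 (-285714) (∏ r ∈ insert q S, r) p (by omega) hm4' hpm'
  rw [cnt_E14 p pp (by omega) (by rintro rfl; omega), hprod] at h1
  have h2 : (8 ∣ NN (∏ r ∈ insert q S, r) p) ↔ (8 : ℤ) ∣ 1 + p - (jacobiSym q p *
      jacobiSym p (∏ q ∈ S, q)) * ap E14 p := by
    rw [← h1, ← Int.natCast_dvd_natCast]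
    unfold NN
    push_cast
    have h3 : ∀ P C : ℤ, 1 + P - (P - C) = C + 1 := fun P C => by ring
    rw [h3]
  rw [h2, hρ2 _ (by rcases hjq with h | h <;> rcases hjm with h' | h' <;> rw [h, h'] <;> norm_num)]
  rcases hjm with h' | h' <;> rw [h'] <;> constructor <;> intro h <;> linarith

/-- the classes of the inert primes -/
def isI (n : ℕ) : Prop := n % 56 = 5 ∨ n % 56 = 13 ∨ n % 56 = 45

instance (n : ℕ) : Decidable (isI n) := by unfold isI; infer_instance

theorem inert_iff {q : ℕ} : Inert q ↔ q.Prime ∧ isI q := by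
  unfold Inert isI
  refine and_congr_right fun _ => ?_
  omega

/-- a residue class that changes the sign at one prime -/
theorem flip (K p : ℕ) (hK : 0 < K) (hp : p.Prime) (hp2 : p ≠ 2) (hc : Nat.Coprime K p) :
    ∃ n : ℕ, Nat.Coprime n (K * p) ∧ n ≡ 1 [MOD K] ∧ jacobiSym n p = -1 := by
  haveI : Fact p.Prime := ⟨hp⟩
  obtain ⟨t, ht⟩ : ∃ t : ℕ, jacobiSym (t : ℤ) p = -1 := by
    have hchar : ringChar (ZMod p) ≠ 2 := by
      rw [ZMod.ringChar_zmod_n]; exact hp2
    obtain ⟨a, ha⟩ := quadraticChar_exists_neg_one hchar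
    refine ⟨a.val, ?_⟩
    rw [← jacobiSym.legendreSym.to_jacobiSym, legendreSym]
    simpa using ha
  obtain ⟨n, h1, h2⟩ := Nat.chineseRemainder hc 1 t
  have h3 : jacobiSym (n : ℤ) p = -1 := by
    rw [← ht]
    refine jacobiSym.mod_left' ?_
    have h9 : n % p = t % p := h2
    exact_mod_cast h9
  refine ⟨n, ?_, h1, h3⟩
  refine Nat.Coprime.mul_right ?_ ?_
  · have h4 := h1.gcd_eq
    rw [Nat.gcd_one_left] at h4
    exact h4
  · by_contra hne
    have h0 : jacobiSym (n : ℤ) p = 0 := by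
      haveI : NeZero p := ⟨hp.ne_zero⟩
      rw [jacobiSym.eq_zero_iff_not_coprime]
      intro hg
      rw [Int.gcd_natCast_natCast] at hg
      exact hne hg
    rw [h0] at h3
    norm_num at h3

section two

variable (p1 p2 : ℕ)

/-- the inert classes -/
def BB (M : ℕ) [NeZero M] : Finset (ZMod M) := univ.filter fun a => IsUnit a ∧ isI a.val

/-- one cell -/
def Cell (M : ℕ) [NeZero M] (s1 s2 : ℤ) : Finset (ZMod M) :=
  (BB M).filter fun a => jacobiSym a.val p1 = s1 ∧ jacobiSym a.val p2 = s2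

theorem val_mul_nat {M : ℕ} [NeZero M] (a : ZMod M) (n : ℕ) : (a * (n : ZMod M)).val = a.val * n % M := by
  rw [ZMod.val_mul, ZMod.val_natCast, Nat.mul_mod_mod]

theorem js_mod {M p n : ℕ} (h : p ∣ M) : jacobiSym ((n % M : ℕ) : ℤ) p = jacobiSym n p := by
  refine jacobiSym.mod_left' ?_
  have h1 : n % M % p = n % p := Nat.mod_mod_of_dvd n h
  exact_mod_cast h1

theorem js_congr {p n m : ℕ} (h : n ≡ m [MOD p]) : jacobiSym (n : ℤ) p = jacobiSym m p := by
  refine jacobiSym.mod_left' ?_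
  have h1 : n % p = m % p := h
  exact_mod_cast h1

theorem cell_le {M : ℕ} [NeZero M] (h56 : 56 ∣ M) (h1 : p1 ∣ M) (h2 : p2 ∣ M) (n : ℕ)
    (hn : Nat.Coprime n M) (hn56 : n ≡ 1 [MOD 56]) (s1 s2 : ℤ) :
    (Cell p1 p2 M s1 s2).card ≤ (Cell p1 p2 M (s1 * jacobiSym n p1) (s2 * jacobiSym n p2)).card := by
  have hu : IsUnit (n : ZMod M) := (ZMod.isUnit_iff_coprime n M).2 hn
  refine card_le_card_of_injOn (fun a => a * (n : ZMod M)) ?_ ?_
  · intro a ha
    rw [mem_coe] at ha ⊢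
    unfold Cell BB at ha ⊢
    rw [mem_filter, mem_filter] at ha ⊢
    obtain ⟨⟨-, h3, h4⟩, h5, h6⟩ := ha
    refine ⟨⟨mem_univ _, h3.mul hu, ?_⟩, ?_, ?_⟩
    · show isI (a * (n : ZMod M)).val
      rw [val_mul_nat]
      have e : a.val * n % M % 56 = a.val % 56 := by
        rw [Nat.mod_mod_of_dvd _ h56, Nat.mul_mod, hn56]
        norm_num
      unfold isI at h4 ⊢
      rw [e]
      exact h4
    · show jacobiSym ((a * (n : ZMod M)).val : ℤ) p1 = _
      rw [val_mul_nat, js_mod h1]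
      push_cast
      rw [jacobiSym.mul_left, h5]
    · show jacobiSym ((a * (n : ZMod M)).val : ℤ) p2 = _
      rw [val_mul_nat, js_mod h2]
      push_cast
      rw [jacobiSym.mul_left, h6]
  · intro a _ b _ hab
    exact hu.mul_right_cancel hab

theorem cells_eq {p1 p2 : ℕ} (hp1 : p1.Prime) (hp2 : p2.Prime) (h1 : p1 % 8 = 1) (h2 : p2 % 8 = 1)
    (hne : p1 ≠ p2) {M : ℕ} [NeZero M] (hM : M = 56 * (p1 * p2)) (h17 : p1 ≠ 7) (h27 : p2 ≠ 7)
    {s1 s2 : ℤ} (hs1 : s1 = 1 ∨ s1 = -1) (hs2 : s2 = 1 ∨ s2 = -1) :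
    (Cell p1 p2 M s1 s2).card = (Cell p1 p2 M 1 1).card := by
  have h56 : 56 ∣ M := ⟨_, hM⟩
  have d1 : p1 ∣ M := ⟨56 * p2, by rw [hM]; ring⟩
  have d2 : p2 ∣ M := ⟨56 * p1, by rw [hM]; ring⟩
  have c12 : Nat.Coprime p1 p2 := (Nat.coprime_primes hp1 hp2).2 hne
  have c56 : ∀ p : ℕ, p.Prime → p % 8 = 1 → p ≠ 7 → Nat.Coprime 56 p := by
    intro p pp p8 p7
    rw [show (56 : ℕ) = 2 ^ 3 * 7 by norm_num]
    refine Nat.Coprime.mul_left (Nat.Coprime.pow_left 3
      ((Nat.coprime_primes Nat.prime_two pp).2 (by omega)))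
      ((Nat.coprime_primes (by norm_num) pp).2 (by omega))
  obtain ⟨n1, a1, b1, e1⟩ := flip (56 * p2) p1 (Nat.mul_pos (by norm_num) hp2.pos) hp1 (by omega)
    (Nat.Coprime.mul_left (c56 p1 hp1 h1 h17) c12.symm)
  obtain ⟨n2, a2, b2, e2⟩ := flip (56 * p1) p2 (Nat.mul_pos (by norm_num) hp1.pos) hp2 (by omega)
    (Nat.Coprime.mul_left (c56 p2 hp2 h2 h27) c12)
  have a1' : Nat.Coprime n1 M := by rw [hM]; convert a1 using 1; ring
  have a2' : Nat.Coprime n2 M := by rw [hM]; convert a2 using 1; ring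
  have f1 : jacobiSym n1 p2 = 1 := by
    have := js_congr (b1.of_mul_left 56)
    rw [this]
    simp
  have f2 : jacobiSym n2 p1 = 1 := by
    have := js_congr (b2.of_mul_left 56)
    rw [this]
    simp
  have g1 : ∀ s1 s2 : ℤ, (Cell p1 p2 M s1 s2).card ≤ (Cell p1 p2 M (-s1) s2).card := by
    intro s1 s2
    have := cell_le p1 p2 h56 d1 d2 n1 a1' (b1.of_mul_right p2) s1 s2
    rw [e1, f1] at this
    simpa using this
  have g2 : ∀ s1 s2 : ℤ, (Cell p1 p2 M s1 s2).card ≤ (Cell p1 p2 M s1 (-s2)).card := by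
    intro s1 s2
    have := cell_le p1 p2 h56 d1 d2 n2 a2' (b2.of_mul_right p1) s1 s2
    rw [e2, f2] at this
    simpa using this
  have k1 : ∀ s1 s2 : ℤ, (Cell p1 p2 M (-s1) s2).card = (Cell p1 p2 M s1 s2).card := by
    intro s1 s2
    refine le_antisymm ?_ (g1 s1 s2)
    have := g1 (-s1) s2
    rwa [neg_neg] at this
  have k2 : ∀ s1 s2 : ℤ, (Cell p1 p2 M s1 (-s2)).card = (Cell p1 p2 M s1 s2).card := by
    intro s1 s2
    refine le_antisymm ?_ (g2 s1 s2)
    have := g2 s1 (-s2)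
    rwa [neg_neg] at this
  rcases hs1 with rfl | rfl <;> rcases hs2 with rfl | rfl
  · rfl
  · exact k2 1 1
  · exact k1 1 1
  · exact (k1 1 (-1)).trans (k2 1 1)

end two

theorem mem_BB {M q : ℕ} [NeZero M] (h56 : 56 ∣ M) (hq : q.Prime)
    (hc : isI q → Nat.Coprime q M) : (q : ZMod M) ∈ BB M ↔ isI q := by
  unfold BB
  rw [mem_filter, ZMod.val_natCast]
  have e : isI (q % M) ↔ isI q := by
    unfold isI
    rw [Nat.mod_mod_of_dvd _ h56]
  rw [e]
  exact ⟨fun h => h.2.2, fun h => ⟨mem_univ _, (ZMod.isUnit_iff_coprime q M).2 (hc h), h⟩⟩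

theorem BB_nonempty {M : ℕ} [NeZero M] (h56 : 56 ∣ M) {K : ℕ} (hM : M = 56 * K)
    (hc : Nat.Coprime 56 K) : (BB M).Nonempty := by
  obtain ⟨n, h1, h2⟩ := Nat.chineseRemainder hc 5 1
  refine ⟨(n : ZMod M), ?_⟩
  unfold BB
  rw [mem_filter, ZMod.val_natCast]
  refine ⟨mem_univ _, ?_, ?_⟩
  · rw [ZMod.isUnit_iff_coprime, hM]
    refine Nat.Coprime.mul_right ?_ ?_
    · have h4 := h1.gcd_eq
      rw [show Nat.gcd 5 56 = 1 by norm_num] at h4
      exact h4
    · have h4 := h2.gcd_eq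
      rw [Nat.gcd_one_left] at h4
      exact h4
  · unfold isI
    rw [Nat.mod_mod_of_dvd _ h56]
    left
    exact h1

theorem inert_coprime {q : ℕ} (hq : q.Prime) (h : isI q) : Nat.Coprime q 56 := by
  rw [Nat.Prime.coprime_iff_not_dvd hq]
  intro h1
  have h2 : q ∣ 2 ^ 3 * 7 := by norm_num; exact h1
  rcases (Nat.Prime.dvd_mul hq).1 h2 with h3 | h3
  · have h4 := (Nat.prime_dvd_prime_iff_eq hq Nat.prime_two).1 (hq.dvd_of_dvd_pow h3)
    unfold isI at h
    omega
  · have h4 := (Nat.prime_dvd_prime_iff_eq hq (by norm_num)).1 h3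
    unfold isI at h
    omega

/-- **The density for two split primes.** -/
theorem density2 {p1 p2 : ℕ} (hne : p1 ≠ p2) {S : Finset ℕ} (h1 : Split p1) (h2 : Split p2)
    (hS : ∀ q ∈ S, Inert q) (P Q : ℕ → Prop) [DecidablePred P] [DecidablePred Q]
    (hP : ∀ q, P q ↔ Inert q ∧ q ∉ S ∧ Cond2 p1 p2 (∏ r ∈ insert q S, r))
    (hQ : ∀ q, Q q ↔ Inert q) (δ : ℝ)
    (hδ : (IsSquare (p1 : ZMod p2) ∧ δ = 1 / 4) ∨ (¬ IsSquare (p1 : ZMod p2) ∧ δ = 3 / 4)) :
    Tendsto (fun X : ℕ => (((Icc 1 X).filter P).card : ℝ) / (((Icc 1 X).filter Q).card : ℝ)) atTop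
      (𝓝 δ) := by
  classical
  obtain ⟨τ1, ht1, hg1⟩ := good_iff h1 hS
  obtain ⟨τ2, ht2, hg2⟩ := good_iff h2 hS
  obtain ⟨pp1, p18, p17⟩ := h1
  obtain ⟨pp2, p28, p27⟩ := h2
  have hM : 56 * (p1 * p2) = 56 * (p1 * p2) := rfl
  generalize hMd : 56 * (p1 * p2) = M at hM
  haveI : NeZero M := ⟨by
    rw [← hMd]
    exact Nat.mul_ne_zero (by norm_num) (Nat.mul_ne_zero pp1.ne_zero pp2.ne_zero)⟩
  have h56 : 56 ∣ M := ⟨_, hMd.symm⟩
  have d1 : p1 ∣ M := ⟨56 * p2, by rw [← hMd]; ring⟩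
  have d2 : p2 ∣ M := ⟨56 * p1, by rw [← hMd]; ring⟩
  have hcop : ∀ q : ℕ, q.Prime → isI q → Nat.Coprime q M := by
    intro q hq hI
    rw [← hMd]
    refine Nat.Coprime.mul_right (inert_coprime hq hI) (Nat.Coprime.mul_right ?_ ?_)
    · refine (Nat.coprime_primes hq pp1).2 ?_
      unfold isI at hI
      omega
    · refine (Nat.coprime_primes hq pp2).2 ?_
      unfold isI at hI
      omega
  let J : ZMod M → ℤ × ℤ := fun a => (jacobiSym a.val p1, jacobiSym a.val p2)
  let C : ℤ × ℤ → Prop := fun s => (s.1 = τ1 ∧ s.2 = τ2) ∨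
    (¬ IsSquare (p1 : ZMod p2) ∧ (s.1 = τ1 ∨ s.2 = τ2))
  set A : Finset (ZMod M) := (BB M).filter fun a => C (J a) with hA
  have hBu : ∀ a ∈ BB M, IsUnit a := by
    intro a ha
    unfold BB at ha
    exact (mem_filter.1 ha).2.1
  have hAu : ∀ a ∈ A, IsUnit a := fun a ha => hBu a (mem_filter.1 ha).1
  have hBn : (BB M).Nonempty := by
    refine BB_nonempty h56 hMd.symm ?_
    have c56 : ∀ p : ℕ, p.Prime → p % 8 = 1 → p ≠ 7 → Nat.Coprime 56 p := by
      intro p pp p8 p7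
      rw [show (56 : ℕ) = 2 ^ 3 * 7 by norm_num]
      refine Nat.Coprime.mul_left (Nat.Coprime.pow_left 3
        ((Nat.coprime_primes Nat.prime_two pp).2 (by omega)))
        ((Nat.coprime_primes (by norm_num) pp).2 (by omega))
    exact Nat.Coprime.mul_right (c56 p1 pp1 p18 (by omega)) (c56 p2 pp2 p28 (by omega))
  have hJq : ∀ q : ℕ, J (q : ZMod M) = (jacobiSym q p1, jacobiSym q p2) := by
    intro q
    show (jacobiSym ((q : ZMod M).val : ℤ) p1, jacobiSym ((q : ZMod M).val : ℤ) p2) = _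
    rw [ZMod.val_natCast, js_mod d1, js_mod d2]
  have hQ' : ∀ q : ℕ, q ∉ S → (Q q ↔ q.Prime ∧ (q : ZMod M) ∈ BB M) := by
    intro q _
    rw [hQ, inert_iff]
    refine and_congr_right fun hq => ?_
    exact (mem_BB h56 hq (hcop q hq)).symm
  have hP' : ∀ q : ℕ, q ∉ S → (P q ↔ q.Prime ∧ (q : ZMod M) ∈ A) := by
    intro q hqS
    rw [hP, hA, mem_filter]
    constructor
    · rintro ⟨h3, -, h4⟩
      have h3' := inert_iff.1 h3
      refine ⟨h3.1, (mem_BB h56 h3.1 (hcop q h3.1)).2 h3'.2, ?_⟩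
      show C (J q)
      rw [hJq]
      unfold Cond2 at h4
      rw [hg1 q h3 hqS, hg2 q h3 hqS] at h4
      exact h4
    · rintro ⟨h3, h4, h5⟩
      have h6 : Inert q := inert_iff.2 ⟨h3, (mem_BB h56 h3 (hcop q h3)).1 h4⟩
      refine ⟨h6, hqS, ?_⟩
      have h7 : C (J q) := h5
      rw [hJq] at h7
      unfold Cond2
      rw [hg1 q h6 hqS, hg2 q h6 hqS]
      exact h7
  have key := ratio_tendsto M A (BB M) hAu hBu hBn S P Q hP' hQ'
  -- the cells
  have hsgn : ∀ a ∈ BB M, J a ∈ (({1, -1} : Finset ℤ) ×ˢ ({1, -1} : Finset ℤ)) := by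
    intro a ha
    have hu := hBu a ha
    have hu' : Nat.Coprime a.val M := by
      rw [← ZMod.isUnit_iff_coprime, ZMod.natCast_zmod_val]
      exact hu
    have e : ∀ p : ℕ, p ∣ M → jacobiSym (a.val : ℤ) p = 1 ∨ jacobiSym (a.val : ℤ) p = -1 := by
      intro p hp
      refine jacobiSym.eq_one_or_neg_one ?_
      rw [Int.gcd_natCast_natCast]
      exact Nat.Coprime.coprime_dvd_right hp hu'
    rw [mem_product, mem_insert, mem_singleton, mem_insert, mem_singleton]
    exact ⟨e p1 d1, e p2 d2⟩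
  have hcell : ∀ s ∈ (({1, -1} : Finset ℤ) ×ˢ ({1, -1} : Finset ℤ)),
      ((BB M).filter fun a => J a = s).card = (Cell p1 p2 M 1 1).card := by
    rintro ⟨s1, s2⟩ hs
    rw [mem_product, mem_insert, mem_singleton, mem_insert, mem_singleton] at hs
    rw [← cells_eq pp1 pp2 p18 p28 hne hMd.symm (by omega) (by omega) hs.1 hs.2]
    congr 1
    unfold Cell
    refine filter_congr fun a _ => ?_
    show (_, _) = (s1, s2) ↔ _
    rw [Prod.mk.injEq]
  set N0 := (Cell p1 p2 M 1 1).card with hN0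
  have hBc : (BB M).card = 4 * N0 := by
    rw [card_eq_sum_card_fiberwise hsgn, sum_congr rfl hcell, sum_const, smul_eq_mul]
    rfl
  have hAc : A.card = ((({1, -1} : Finset ℤ) ×ˢ ({1, -1} : Finset ℤ)).filter C).card * N0 := by
    rw [card_eq_sum_card_fiberwise (f := J) (t := ({1, -1} : Finset ℤ) ×ˢ ({1, -1} : Finset ℤ))
      (fun a ha => hsgn a (mem_filter.1 ha).1), card_filter, sum_mul]
    refine sum_congr rfl fun s hs => ?_
    rw [← hcell s hs]
    by_cases hCs : C s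
    · rw [if_pos hCs, one_mul]
      congr 1
      ext a
      rw [mem_filter, mem_filter, mem_filter]
      constructor
      · rintro ⟨⟨h3, -⟩, h4⟩
        exact ⟨h3, h4⟩
      · rintro ⟨h3, h4⟩
        exact ⟨⟨h3, by rw [h4]; exact hCs⟩, h4⟩
    · rw [if_neg hCs, zero_mul, card_eq_zero, filter_eq_empty_iff]
      intro a ha h4
      rw [mem_filter] at ha
      rw [h4] at ha
      exact hCs ha.2
  have hN0p : 0 < N0 := by
    have := hBn.card_pos
    omega
  have hfin : ((A.card : ℝ) / (BB M).card) = δ := by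
    rw [hAc, hBc]
    have hN0r : (0 : ℝ) < N0 := by exact_mod_cast hN0p
    push_cast
    rw [mul_div_mul_right _ _ hN0r.ne']
    rcases hδ with ⟨h3, h4⟩ | ⟨h3, h4⟩
    · have : ((({1, -1} : Finset ℤ) ×ˢ ({1, -1} : Finset ℤ)).filter C) = {(τ1, τ2)} := by
        ext ⟨s1, s2⟩
        simp only [mem_filter, mem_product, mem_insert, mem_singleton, Prod.mk.injEq, C, h3,
          not_true_eq_false, false_and, or_false]
        constructor
        · exact fun h => h.2
        · rintro ⟨rfl, rfl⟩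
          exact ⟨⟨ht1, ht2⟩, rfl, rfl⟩
      rw [this, card_singleton, h4]
      norm_num
    · have : ((({1, -1} : Finset ℤ) ×ˢ ({1, -1} : Finset ℤ)).filter C) =
          {(τ1, τ2), (τ1, -τ2), (-τ1, τ2)} := by
        ext ⟨s1, s2⟩
        simp only [mem_filter, mem_product, mem_insert, mem_singleton, Prod.mk.injEq, C, h3,
          not_false_eq_true, true_and]
        rcases ht1 with rfl | rfl <;> rcases ht2 with rfl | rfl <;> constructor
        all_goals first
          | (rintro ⟨⟨rfl | rfl, rfl | rfl⟩, h⟩ <;> simp at h ⊢)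
          | (rintro (⟨rfl, rfl⟩ | ⟨rfl, rfl⟩ | ⟨rfl, rfl⟩) <;> simp)
      rw [this, h4]
      have : ({(τ1, τ2), (τ1, -τ2), (-τ1, τ2)} : Finset (ℤ × ℤ)).card = 3 := by
        rcases ht1 with rfl | rfl <;> rcases ht2 with rfl | rfl <;> decide
      rw [this]
      norm_num
  rw [hfin] at key
  exact key

/-- **The density for one split prime.** -/
theorem density1 {p : ℕ} {S : Finset ℕ} (h1 : Split p)
    (hS : ∀ q ∈ S, Inert q) (P Q : ℕ → Prop) [DecidablePred P] [DecidablePred Q]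
    (hP : ∀ q, P q ↔ Inert q ∧ q ∉ S ∧ ¬ 8 ∣ NN (∏ r ∈ insert q S, r) p)
    (hQ : ∀ q, Q q ↔ Inert q) :
    Tendsto (fun X : ℕ => (((Icc 1 X).filter P).card : ℝ) / (((Icc 1 X).filter Q).card : ℝ)) atTop
      (𝓝 (1 / 2)) := by
  classical
  obtain ⟨τ1, ht1, hg1⟩ := good_iff h1 hS
  obtain ⟨pp1, p18, p17⟩ := h1
  have hM : 56 * p = 56 * p := rfl
  generalize hMd : 56 * p = M at hM
  haveI : NeZero M := ⟨by
    rw [← hMd]
    exact Nat.mul_ne_zero (by norm_num) pp1.ne_zero⟩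
  have h56 : 56 ∣ M := ⟨_, hMd.symm⟩
  have d1 : p ∣ M := ⟨56, by rw [← hMd]; ring⟩
  have hcop : ∀ q : ℕ, q.Prime → isI q → Nat.Coprime q M := by
    intro q hq hI
    rw [← hMd]
    refine Nat.Coprime.mul_right (inert_coprime hq hI) ?_
    refine (Nat.coprime_primes hq pp1).2 ?_
    unfold isI at hI
    omega
  let J : ZMod M → ℤ := fun a => jacobiSym a.val p
  set A : Finset (ZMod M) := (BB M).filter fun a => J a = τ1 with hA
  have hBu : ∀ a ∈ BB M, IsUnit a := by
    intro a ha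
    unfold BB at ha
    exact (mem_filter.1 ha).2.1
  have hAu : ∀ a ∈ A, IsUnit a := fun a ha => hBu a (mem_filter.1 ha).1
  have c56 : Nat.Coprime 56 p := by
    rw [show (56 : ℕ) = 2 ^ 3 * 7 by norm_num]
    refine Nat.Coprime.mul_left (Nat.Coprime.pow_left 3
      ((Nat.coprime_primes Nat.prime_two pp1).2 (by omega)))
      ((Nat.coprime_primes (by norm_num) pp1).2 (by omega))
  have hBn : (BB M).Nonempty := BB_nonempty h56 hMd.symm c56
  have hJq : ∀ q : ℕ, J (q : ZMod M) = jacobiSym q p := by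
    intro q
    show jacobiSym ((q : ZMod M).val : ℤ) p = _
    rw [ZMod.val_natCast, js_mod d1]
  have hQ' : ∀ q : ℕ, q ∉ S → (Q q ↔ q.Prime ∧ (q : ZMod M) ∈ BB M) := by
    intro q _
    rw [hQ, inert_iff]
    refine and_congr_right fun hq => ?_
    exact (mem_BB h56 hq (hcop q hq)).symm
  have hP' : ∀ q : ℕ, q ∉ S → (P q ↔ q.Prime ∧ (q : ZMod M) ∈ A) := by
    intro q hqS
    rw [hP, hA, mem_filter]
    constructor
    · rintro ⟨h3, -, h4⟩
      have h3' := inert_iff.1 h3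
      refine ⟨h3.1, (mem_BB h56 h3.1 (hcop q h3.1)).2 h3'.2, ?_⟩
      rw [hJq]
      exact (hg1 q h3 hqS).1 h4
    · rintro ⟨h3, h4, h5⟩
      have h6 : Inert q := inert_iff.2 ⟨h3, (mem_BB h56 h3 (hcop q h3)).1 h4⟩
      refine ⟨h6, hqS, ?_⟩
      rw [hJq] at h5
      exact (hg1 q h6 hqS).2 h5
  have key := ratio_tendsto M A (BB M) hAu hBu hBn S P Q hP' hQ'
  have hsgn : ∀ a ∈ BB M, J a = 1 ∨ J a = -1 := by
    intro a ha
    have hu := hBu a ha
    have hu' : Nat.Coprime a.val M := by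
      rw [← ZMod.isUnit_iff_coprime, ZMod.natCast_zmod_val]
      exact hu
    refine jacobiSym.eq_one_or_neg_one ?_
    rw [Int.gcd_natCast_natCast]
    exact Nat.Coprime.coprime_dvd_right d1 hu'
  obtain ⟨n1, a1, b1, e1⟩ := flip 56 p (by norm_num) pp1 (by omega) c56
  rw [hMd] at a1
  have hu : IsUnit (n1 : ZMod M) := (ZMod.isUnit_iff_coprime n1 M).2 a1
  have hle : ∀ s : ℤ, ((BB M).filter fun a => J a = s).card ≤ ((BB M).filter fun a => J a = -s).card := by
    intro s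
    refine card_le_card_of_injOn (fun a => a * (n1 : ZMod M)) ?_ ?_
    · intro a ha
      rw [mem_coe] at ha ⊢
      unfold BB at ha ⊢
      rw [mem_filter, mem_filter] at ha ⊢
      obtain ⟨⟨-, h3, h4⟩, h5⟩ := ha
      refine ⟨⟨mem_univ _, h3.mul hu, ?_⟩, ?_⟩
      · show isI (a * (n1 : ZMod M)).val
        rw [val_mul_nat]
        have e : a.val * n1 % M % 56 = a.val % 56 := by
          rw [Nat.mod_mod_of_dvd _ h56, Nat.mul_mod, b1]
          norm_num
        unfold isI at h4 ⊢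
        rw [e]
        exact h4
      · show jacobiSym ((a * (n1 : ZMod M)).val : ℤ) p = _
        rw [val_mul_nat, js_mod d1]
        push_cast
        rw [jacobiSym.mul_left, e1]
        have h6 : jacobiSym (a.val : ℤ) p = s := h5
        rw [h6]
        ring
    · intro a _ b _ hab
      exact hu.mul_right_cancel hab
  have heq : ((BB M).filter fun a => J a = 1).card = ((BB M).filter fun a => J a = -1).card := by
    refine le_antisymm (hle 1) ?_
    have := hle (-1)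
    rwa [neg_neg] at this
  have hsplit : (BB M).card = ((BB M).filter fun a => J a = 1).card +
      ((BB M).filter fun a => J a = -1).card := by
    rw [← card_union_of_disjoint]
    · congr 1
      ext a
      rw [mem_union, mem_filter, mem_filter]
      constructor
      · intro ha
        rcases hsgn a ha with h | h
        · exact Or.inl ⟨ha, h⟩
        · exact Or.inr ⟨ha, h⟩
      · rintro (h | h) <;> exact h.1
    · rw [disjoint_left]
      intro a ha hb
      have h3 := (mem_filter.1 ha).2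
      have h4 := (mem_filter.1 hb).2
      rw [h3] at h4
      norm_num at h4
  have hAc : A.card = ((BB M).filter fun a => J a = 1).card := by
    rcases ht1 with h | h
    · rw [hA, h]
    · rw [hA, h, heq]
  have hp := hBn.card_pos
  have hfin : ((A.card : ℝ) / (BB M).card) = 1 / 2 := by
    rw [hsplit, ← heq, hAc]
    have h3 : (0 : ℝ) < ((BB M).filter fun a => J a = 1).card := by
      have : 0 < ((BB M).filter fun a => J a = 1).card := by omega
      exact_mod_cast this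
    push_cast
    field_simp
    norm_num
  rw [hfin] at key
  exact key

end Pool.Agent.U115.X14
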